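import Mathlib

/-!
# `r`-qualitatively independent families: definitions and first properties
-/

set_option autoImplicit false

namespace Pool.Agent.Lib_helper42.QI

open Finset

universe u v

/-- `F` is an `r`-qualitatively independent family of subsets of `V`. -/
def QI {V : Type u} [Fintype V] [DecidableEq V] (r : ℕ) (F : Finset (Finset V)) : Prop :=
  ∀ A ∈ F, ∀ B ∈ F, A ≠ B →
    r ≤ (A ∩ B).card ∧ r ≤ (A ∩ Bᶜ).card ∧ r ≤ (Aᶜ ∩ B).card ∧ r ≤ (Aᶜ ∩ Bᶜ).card

/-- `maxQI r n` is `M_r(n)`. -/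
noncomputable def maxQI (r n : ℕ) : ℕ :=
  sSup {m | ∃ F : Finset (Finset (Fin n)), QI r F ∧ F.card = m}

lemma bddAbove_QI (r n : ℕ) :
    BddAbove {m | ∃ F : Finset (Finset (Fin n)), QI r F ∧ F.card = m} := by
  refine ⟨Fintype.card (Finset (Fin n)), ?_⟩
  rintro m ⟨F, -, rfl⟩
  exact Finset.card_le_univ F

lemma nonempty_QI (r n : ℕ) :
    ({m | ∃ F : Finset (Finset (Fin n)), QI r F ∧ F.card = m} : Set ℕ).Nonempty :=
  ⟨0, ∅, by simp [QI], rfl⟩

lemma exists_maxQI (r n : ℕ) :
    ∃ F : Finset (Finset (Fin n)), QI r F ∧ F.card = maxQI r n :=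
  Nat.sSup_mem (nonempty_QI r n) (bddAbove_QI r n)

lemma maxQI_le {r n b : ℕ} (h : ∀ F : Finset (Finset (Fin n)), QI r F → F.card ≤ b) :
    maxQI r n ≤ b := by
  obtain ⟨F, hF, e⟩ := exists_maxQI r n
  rw [← e]; exact h F hF

lemma le_maxQI_fin {r n : ℕ} {F : Finset (Finset (Fin n))} (h : QI r F) :
    F.card ≤ maxQI r n :=
  le_csSup (bddAbove_QI r n) ⟨F, h, rfl⟩

/-- Transfer of a family along an equivalence. -/
lemma QI.map_equiv {V : Type u} {W : Type v} [Fintype V] [DecidableEq V] [Fintype W]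
    [DecidableEq W] (e : V ≃ W) {r : ℕ} {F : Finset (Finset V)} (h : QI r F) :
    QI r (F.map (Finset.mapEmbedding e.toEmbedding).toEmbedding) := by
  intro A hA B hB hAB
  rw [Finset.mem_map] at hA hB
  obtain ⟨A', hA', rfl⟩ := hA
  obtain ⟨B', hB', rfl⟩ := hB
  have hne : A' ≠ B' := fun hh => hAB (by rw [hh])
  obtain ⟨h1, h2, h3, h4⟩ := h A' hA' B' hB' hne
  have cm : ∀ X : Finset V, (X.map e.toEmbedding)ᶜ = Xᶜ.map e.toEmbedding := by
    intro X
    ext x
    simp only [mem_compl, mem_map_equiv]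
  simp only [RelEmbedding.coe_toEmbedding, mapEmbedding_apply, cm, ← Finset.map_inter,
    Finset.card_map]
  exact ⟨h1, h2, h3, h4⟩

lemma le_maxQI {V : Type u} [Fintype V] [DecidableEq V] {r n : ℕ} (hV : Fintype.card V = n)
    {F : Finset (Finset V)} (h : QI r F) : F.card ≤ maxQI r n := by
  have e : V ≃ Fin n := Fintype.equivFinOfCardEq hV
  have := le_maxQI_fin (h.map_equiv e)
  simpa using this

/-- Another form of the definition: it suffices to have a bound for all families over one type. -/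
lemma QI_card_le_of_maxQI {V : Type u} [Fintype V] [DecidableEq V] {r n b : ℕ}
    (hV : Fintype.card V = n) (h : ∀ F : Finset (Finset V), QI r F → F.card ≤ b) :
    maxQI r n ≤ b := by
  have e : Fin n ≃ V := (Fintype.equivFinOfCardEq hV).symm
  refine maxQI_le fun F hF => ?_
  have := h _ (hF.map_equiv e)
  simpa using this

/-- Images under a function which preserves the regions' sizes from below. -/
lemma QI.card_le_maxQI_of_map {V : Type u} [DecidableEq V] {W : Type v} [Fintype W]
    [DecidableEq W] {r n : ℕ} (hW : Fintype.card W = n) (G : Finset (Finset V))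
    (φ : Finset V → Finset W) (hr : 1 ≤ r)
    (hφ : ∀ A ∈ G, ∀ B ∈ G, A ≠ B → r ≤ (φ A ∩ φ B).card ∧ r ≤ (φ A ∩ (φ B)ᶜ).card ∧
      r ≤ ((φ A)ᶜ ∩ φ B).card ∧ r ≤ ((φ A)ᶜ ∩ (φ B)ᶜ).card) :
    G.card ≤ maxQI r n := by
  have hinj : Set.InjOn φ (G : Set (Finset V)) := by
    intro A hA B hB hAB
    by_contra hne
    have := (hφ A hA B hB hne).2.1
    rw [hAB, Finset.inter_compl] at this
    simp at this
    omega
  have : QI r (G.image φ) := by
    intro A hA B hB hAB
    rw [Finset.mem_image] at hA hB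
    obtain ⟨A', hA', rfl⟩ := hA
    obtain ⟨B', hB', rfl⟩ := hB
    exact hφ A' hA' B' hB' (fun hh => hAB (by rw [hh]))
  have h2 := le_maxQI hW this
  rwa [Finset.card_image_of_injOn hinj] at h2

/-- For `n ≥ 4 r` there is a pair. -/
lemma two_le_maxQI {r n : ℕ} (h : 4 * r ≤ n) (hr : 1 ≤ r) : 2 ≤ maxQI r n := by
  classical
  let A : Finset (Fin n) := univ.filter (fun i => i.val < 2 * r)
  let B : Finset (Fin n) := univ.filter (fun i => r ≤ i.val ∧ i.val < 3 * r)
  have key : ∀ (s t : ℕ) (X : Finset (Fin n)), s + r ≤ n →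
      (∀ i : Fin n, s ≤ i.val → i.val < s + r → i ∈ X) → r ≤ X.card := by
    intro s _ X hs hX
    have hsub : (Finset.univ : Finset (Fin r)).card ≤ X.card := by
      refine Finset.card_le_card_of_injOn (fun i => (⟨s + i.val, by omega⟩ : Fin n)) ?_ ?_
      · intro i _
        exact hX _ (by simp) (by simp)
      · intro i _ j _ hij
        simp only [Fin.mk.injEq, add_right_inj] at hij
        exact Fin.ext hij
    simpa using hsub
  have hAB : A ≠ B := by
    intro hh
    have : (⟨0, by omega⟩ : Fin n) ∈ A := by simp [A]; omega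
    rw [hh] at this
    simp [B] at this
    omega
  have c1 : r ≤ (A ∩ B).card := by
    refine key r 0 _ (by omega) ?_
    intro i h1 h2
    simp only [A, B, mem_inter, mem_filter, mem_univ, true_and]
    omega
  have c2 : r ≤ (A ∩ Bᶜ).card := by
    refine key 0 0 _ (by omega) ?_
    intro i h1 h2
    simp only [A, B, mem_inter, mem_filter, mem_univ, true_and, mem_compl]
    omega
  have c3 : r ≤ (Aᶜ ∩ B).card := by
    refine key (2 * r) 0 _ (by omega) ?_
    intro i h1 h2
    simp only [A, B, mem_inter, mem_filter, mem_univ, true_and, mem_compl]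
    omega
  have c4 : r ≤ (Aᶜ ∩ Bᶜ).card := by
    refine key (3 * r) 0 _ (by omega) ?_
    intro i h1 h2
    simp only [A, B, mem_inter, mem_filter, mem_univ, true_and, mem_compl]
    omega
  have hF : QI r ({A, B} : Finset (Finset (Fin n))) := by
    intro X hX Y hY hXY
    simp only [mem_insert, mem_singleton] at hX hY
    rcases hX with rfl | rfl <;> rcases hY with rfl | rfl
    · exact absurd rfl hXY
    · exact ⟨c1, c2, c3, c4⟩
    · refine ⟨?_, ?_, ?_, ?_⟩
      · rwa [Finset.inter_comm]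
      · rwa [Finset.inter_comm]
      · rwa [Finset.inter_comm]
      · rwa [Finset.inter_comm]
    · exact absurd rfl hXY
  have := le_maxQI_fin hF
  rwa [Finset.card_pair hAB] at this

/-- For `n < 4 r` no two distinct sets work. -/
lemma maxQI_of_lt {r n : ℕ} (h : n < 4 * r) : maxQI r n = 1 := by
  apply le_antisymm
  · refine maxQI_le fun F hF => ?_
    rw [Finset.card_le_one]
    intro A hA B hB
    by_contra hAB
    obtain ⟨h1, h2, h3, h4⟩ := hF A hA B hB hAB
    have e1 : (A ∩ B).card + (A ∩ Bᶜ).card = A.card := by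
      rw [← Finset.sdiff_eq_inter_compl]
      exact Finset.card_inter_add_card_sdiff A B
    have e2 : (Aᶜ ∩ B).card + (Aᶜ ∩ Bᶜ).card = Aᶜ.card := by
      rw [← Finset.sdiff_eq_inter_compl]
      exact Finset.card_inter_add_card_sdiff _ B
    have e3 : A.card + Aᶜ.card = n := by
      rw [Finset.card_add_card_compl]; simp
    omega
  · have : QI r ({∅} : Finset (Finset (Fin n))) := by
      intro A hA B hB hAB
      simp only [mem_singleton] at hA hB
      exact absurd (hA.trans hB.symm) hAB
    have h2 := le_maxQI_fin this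
    simpa using h2

/-- `M_r(n)` is nondecreasing in `n`. -/
lemma maxQI_mono {r n n' : ℕ} (hr : 1 ≤ r) (h : n ≤ n') : maxQI r n ≤ maxQI r n' := by
  obtain ⟨F, hF, e⟩ := exists_maxQI r n
  rw [← e]
  refine QI.card_le_maxQI_of_map (W := Fin n') (by simp) F
    (fun A => A.map (Fin.castLEEmb h)) hr ?_
  intro A hA B hB hAB
  obtain ⟨h1, h2, h3, h4⟩ := hF A hA B hB hAB
  have sub : ∀ X : Finset (Fin n), Xᶜ.map (Fin.castLEEmb h) ⊆ (X.map (Fin.castLEEmb h))ᶜ := by
    intro X x hx
    rw [Finset.mem_map] at hx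
    obtain ⟨y, hy, rfl⟩ := hx
    rw [Finset.mem_compl] at hy ⊢
    rwa [Finset.mem_map']
  refine ⟨?_, ?_, ?_, ?_⟩
  · rw [← Finset.map_inter, Finset.card_map]; exact h1
  · refine le_trans ?_ (Finset.card_le_card (Finset.inter_subset_inter_left (sub B)))
    rw [← Finset.map_inter, Finset.card_map]; exact h2
  · refine le_trans ?_ (Finset.card_le_card (Finset.inter_subset_inter_right (sub A)))
    rw [← Finset.map_inter, Finset.card_map]; exact h3
  · refine le_trans ?_ (Finset.card_le_card (Finset.inter_subset_inter (sub A) (sub B)))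
    rw [← Finset.map_inter, Finset.card_map]; exact h4

end Pool.Agent.Lib_helper42.QI
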