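import Mathlib
import Pool.Agent.Lib_helper42.QI.Basic

/-!
# The upper bound `2 C(n+r-1, r-1) M_r(n) ≤ C(n+r-1, ⌊(n+r-1)/2⌋)`
-/

set_option autoImplicit false

namespace Pool.Agent.Lib_helper42.QI

open Finset

universe u

/-- The LYM inequality for families with all differences of size at least `s + 1`. -/
lemma lym_differences {V : Type u} [Fintype V] [DecidableEq V] {s n : ℕ}
    (hn : Fintype.card V = n) (G : Finset (Finset V))
    (hG : ∀ X ∈ G, ∀ Y ∈ G, X ≠ Y → s + 1 ≤ (X \ Y).card) (hs : ∀ X ∈ G, s ≤ X.card) :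
    ∑ X ∈ G, ((X.card.choose s : ℚ) * (((n.choose (X.card - s) : ℕ) : ℚ))⁻¹) ≤ 1 := by
  classical
  -- the shadow blocks
  let T : Finset V → Finset (Finset V) := fun X => powersetCard (X.card - s) X
  have key : ∀ X ∈ G, ∀ X' ∈ G, ∀ Y ∈ T X, ∀ Y' ∈ T X', X ≠ X' → ¬ Y ⊆ Y' := by
    intro X hX X' hX' Y hY Y' hY' hne hsub
    rw [mem_powersetCard] at hY hY'
    have h1 := hG X hX X' hX' hne
    have h2 : X \ X' ⊆ X \ Y := by
      intro x hx
      rw [mem_sdiff] at hx ⊢
      exact ⟨hx.1, fun h => hx.2 (hY'.1 (hsub h))⟩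
    have h3 := Finset.card_le_card h2
    rw [Finset.card_sdiff_of_subset hY.1, hY.2] at h3
    have := hs X hX
    omega
  have hdisj : (G : Set (Finset V)).PairwiseDisjoint T := by
    intro X hX X' hX' hne
    rw [Function.onFun, Finset.disjoint_left]
    intro Y hY hY'
    exact key X hX X' hX' Y hY Y hY' hne (Finset.Subset.refl Y)
  let H : Finset (Finset V) := G.biUnion T
  have hanti : IsAntichain (· ⊆ ·) (H : Set (Finset V)) := by
    intro Y hY Y' hY' hYY' hsub
    rw [Finset.mem_coe, Finset.mem_biUnion] at hY hY'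
    obtain ⟨X, hX, hYX⟩ := hY
    obtain ⟨X', hX', hYX'⟩ := hY'
    by_cases hXX : X = X'
    · subst hXX
      have h1 : Y ∈ powersetCard (X.card - s) X := hYX
      have h2 : Y' ∈ powersetCard (X.card - s) X := hYX'
      rw [mem_powersetCard] at h1 h2
      exact hYY' (Finset.eq_of_subset_of_card_le hsub (by rw [h1.2, h2.2]))
    · exact key X hX X' hX' Y hYX Y' hYX' hXX hsub
  have lym := Finset.lubell_yamamoto_meshalkin_inequality_sum_inv_choose (𝕜 := ℚ) hanti
  have e : ∑ Y ∈ H, ((Fintype.card V).choose Y.card : ℚ)⁻¹ =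
      ∑ X ∈ G, ((X.card.choose s : ℚ) * (((n.choose (X.card - s) : ℕ) : ℚ))⁻¹) := by
    rw [Finset.sum_biUnion hdisj]
    refine Finset.sum_congr rfl fun X hX => ?_
    have : ∀ Y ∈ T X, ((Fintype.card V).choose Y.card : ℚ)⁻¹ =
        (((n.choose (X.card - s) : ℕ) : ℚ))⁻¹ := by
      intro Y hY
      have h1 : Y ∈ powersetCard (X.card - s) X := hY
      rw [mem_powersetCard] at h1
      rw [h1.2, hn]
    rw [Finset.sum_congr rfl this, Finset.sum_const, nsmul_eq_mul, Finset.card_powersetCard,
      Nat.choose_symm (hs X hX)]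
  rw [← e]
  exact lym

/-- A family with all (ordered) differences of size at least `s + 1`. -/
lemma card_mul_choose_le_of_differences {V : Type u} [Fintype V] [DecidableEq V] {s n : ℕ}
    (hn : Fintype.card V = n) (G : Finset (Finset V))
    (hG : ∀ X ∈ G, ∀ Y ∈ G, X ≠ Y → s + 1 ≤ (X \ Y).card) (hs : ∀ X ∈ G, s ≤ X.card) :
    (n + s).choose s * G.card ≤ (n + s).choose ((n + s) / 2) := by
  have h := lym_differences hn G hG hs
  have hC : (0 : ℚ) < ((n + s).choose ((n + s) / 2) : ℕ) := by
    exact_mod_cast Nat.choose_pos (Nat.div_le_self _ _)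
  have h2 : ∀ X ∈ G, (((n + s).choose s : ℕ) : ℚ) * ((((n + s).choose ((n + s) / 2) : ℕ) : ℚ))⁻¹ ≤
      ((X.card.choose s : ℚ) * (((n.choose (X.card - s) : ℕ) : ℚ))⁻¹) := by
    intro X hX
    have hXn : X.card ≤ n := by rw [← hn]; exact Finset.card_le_univ X
    have hsX := hs X hX
    have id1 : (n + s).choose X.card * X.card.choose s =
        (n + s).choose s * n.choose (X.card - s) := by
      have := Nat.choose_mul (n := n + s) (k := X.card) (s := s) hsX
      rwa [Nat.add_sub_cancel] at this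
    have pos1 : 0 < n.choose (X.card - s) := Nat.choose_pos (by omega)
    have pos1' : (0 : ℚ) < (n.choose (X.card - s) : ℕ) := by exact_mod_cast pos1
    have hle : (n + s).choose X.card ≤ (n + s).choose ((n + s) / 2) := Nat.choose_le_middle _ _
    rw [← div_eq_mul_inv, ← div_eq_mul_inv, div_le_div_iff₀ hC pos1']
    have : (n + s).choose s * n.choose (X.card - s) ≤
        X.card.choose s * (n + s).choose ((n + s) / 2) := by
      rw [← id1, Nat.mul_comm]
      exact Nat.mul_le_mul_left _ hle
    exact_mod_cast this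
  have h3 := (Finset.sum_le_sum h2).trans h
  rw [Finset.sum_const, nsmul_eq_mul, ← mul_assoc, ← div_eq_mul_inv, div_le_one hC] at h3
  have h4 : G.card * (n + s).choose s ≤ (n + s).choose ((n + s) / 2) := by exact_mod_cast h3
  rwa [Nat.mul_comm] at h4

/-- **Upper bound.** -/
lemma upper_bound {r n : ℕ} (hr : 1 ≤ r) (hn : 4 * r ≤ n) :
    2 * (n + r - 1).choose (r - 1) * maxQI r n ≤ (n + r - 1).choose ((n + r - 1) / 2) := by
  classical
  obtain ⟨F, hF, e⟩ := exists_maxQI r n
  have h2 := two_le_maxQI hn hr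
  have hF2 : 1 < F.card := by omega
  have hcard : ∀ A ∈ F, r ≤ A.card ∧ r ≤ Aᶜ.card := by
    intro A hA
    obtain ⟨B, hB, hAB⟩ := Finset.exists_mem_ne hF2 A
    obtain ⟨h1, -, h3, -⟩ := hF A hA B hB hAB.symm
    exact ⟨h1.trans (Finset.card_le_card Finset.inter_subset_left),
      h3.trans (Finset.card_le_card Finset.inter_subset_left)⟩
  let G : Finset (Finset (Fin n)) := F ∪ F.image compl
  have hdis : Disjoint F (F.image compl) := by
    rw [Finset.disjoint_left]
    intro A hA hA'
    rw [Finset.mem_image] at hA'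
    obtain ⟨B, hB, hBA⟩ := hA'
    by_cases hAB : A = B
    · subst hAB
      have := (hcard A hA)
      have h0 : A ∩ Aᶜ = ∅ := Finset.inter_compl A
      rw [hBA, Finset.inter_self] at h0
      rw [h0] at this
      simp at this
      omega
    · have h1 := (hF A hA B hB hAB).1
      have h0 : Bᶜ ∩ B = ∅ := by rw [Finset.inter_comm, Finset.inter_compl]
      rw [hBA] at h0
      rw [h0] at h1
      simp at h1
      omega
  have hGcard : G.card = 2 * F.card := by
    rw [Finset.card_union_of_disjoint hdis, Finset.card_image_of_injective _ compl_injective]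
    ring
  have hG : ∀ X ∈ G, ∀ Y ∈ G, X ≠ Y → (r - 1) + 1 ≤ (X \ Y).card := by
    intro X hX Y hY hXY
    rw [Nat.sub_add_cancel hr, Finset.sdiff_eq_inter_compl]
    rw [Finset.mem_union] at hX hY
    rcases hX with hX | hX
    · rcases hY with hY | hY
      · exact (hF X hX Y hY hXY).2.1
      · rw [Finset.mem_image] at hY
        obtain ⟨B, hB, rfl⟩ := hY
        rw [compl_compl]
        by_cases hXB : X = B
        · subst hXB; rw [Finset.inter_self]; exact (hcard X hX).1
        · exact (hF X hX B hB hXB).1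
    · rw [Finset.mem_image] at hX
      obtain ⟨A, hA, rfl⟩ := hX
      rcases hY with hY | hY
      · by_cases hAY : A = Y
        · subst hAY; rw [Finset.inter_self]; exact (hcard A hA).2
        · exact (hF A hA Y hY hAY).2.2.2
      · rw [Finset.mem_image] at hY
        obtain ⟨B, hB, rfl⟩ := hY
        rw [compl_compl]
        have hAB : A ≠ B := fun hh => hXY (by rw [hh])
        exact (hF A hA B hB hAB).2.2.1
  have hs : ∀ X ∈ G, r - 1 ≤ X.card := by
    intro X hX
    rw [Finset.mem_union] at hX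
    rcases hX with hX | hX
    · have := (hcard X hX).1; omega
    · rw [Finset.mem_image] at hX
      obtain ⟨A, hA, rfl⟩ := hX
      have := (hcard A hA).2; omega
  have h := card_mul_choose_le_of_differences (V := Fin n) (n := n) (by simp) G hG hs
  rw [hGcard, e] at h
  have e1 : n + (r - 1) = n + r - 1 := by omega
  rw [e1] at h
  calc 2 * (n + r - 1).choose (r - 1) * maxQI r n
      = (n + r - 1).choose (r - 1) * (2 * maxQI r n) := by ring
    _ ≤ _ := h

lemma central_succ_le (N : ℕ) :
    (N + 1).choose ((N + 1) / 2) ≤ 2 * N.choose (N / 2) := by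
  rcases Nat.eq_zero_or_pos ((N + 1) / 2) with h | h
  · rw [h, Nat.choose_zero_right]
    have := Nat.choose_pos (Nat.div_le_self N 2)
    omega
  · obtain ⟨k, hk⟩ : ∃ k, (N + 1) / 2 = k + 1 := ⟨(N + 1) / 2 - 1, by omega⟩
    rw [hk, Nat.choose_succ_succ']
    have h1 := Nat.choose_le_middle k N
    have h2 := Nat.choose_le_middle (k + 1) N
    omega

lemma central_add_le (N s : ℕ) :
    (N + s).choose ((N + s) / 2) ≤ 2 ^ s * N.choose (N / 2) := by
  induction s with
  | zero => simp
  | succ s ih =>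
    calc (N + (s + 1)).choose ((N + (s + 1)) / 2)
        ≤ 2 * (N + s).choose ((N + s) / 2) := central_succ_le (N + s)
      _ ≤ 2 * (2 ^ s * N.choose (N / 2)) := Nat.mul_le_mul_left _ ih
      _ = 2 ^ (s + 1) * N.choose (N / 2) := by ring


lemma pow_le_choose_mul_factorial (n s : ℕ) :
    n ^ s ≤ (n + s).choose s * s.factorial := by
  have h1 : (n + 1) ^ s ≤ (n + 1).ascFactorial s := Nat.pow_succ_le_ascFactorial (n + 1) s
  rw [Nat.ascFactorial_eq_factorial_mul_choose, Nat.mul_comm] at h1
  exact (Nat.pow_le_pow_left (Nat.le_succ n) s).trans h1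

/-- The upper bound in the form of the order of magnitude. -/
lemma upper_order {r n : ℕ} (hr : 1 ≤ r) (hn : 4 * r ≤ n) :
    2 * n ^ (r - 1) * maxQI r n ≤ 2 ^ (r - 1) * (r - 1).factorial * n.choose (n / 2) := by
  have h := upper_bound hr hn
  have e1 : n + r - 1 = n + (r - 1) := by omega
  rw [e1] at h
  have h2 := central_add_le n (r - 1)
  have h3 := pow_le_choose_mul_factorial n (r - 1)
  calc 2 * n ^ (r - 1) * maxQI r n
      ≤ 2 * ((n + (r - 1)).choose (r - 1) * (r - 1).factorial) * maxQI r n :=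
        Nat.mul_le_mul_right _ (Nat.mul_le_mul_left _ h3)
    _ = (r - 1).factorial * (2 * (n + (r - 1)).choose (r - 1) * maxQI r n) := by ring
    _ ≤ (r - 1).factorial * (n + (r - 1)).choose ((n + (r - 1)) / 2) :=
        Nat.mul_le_mul_left _ h
    _ ≤ (r - 1).factorial * (2 ^ (r - 1) * n.choose (n / 2)) := Nat.mul_le_mul_left _ h2
    _ = _ := by ring

end Pool.Agent.Lib_helper42.QI
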