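import Mathlib
import Pool.Agent.Lib_helper42.QI.Upper

/-!
# The lower bound by pigeonhole over elementary symmetric functions
-/

set_option autoImplicit false

namespace Pool.Agent.Lib_helper42.QI

open Finset Polynomial

universe u v

section Loc

variable {V : Type u} {K : Type v} [Field K] (f : V → K)

/-- The locator polynomial of a set. -/
noncomputable def loc (A : Finset V) : Polynomial K := ∏ a ∈ A, (X - C (f a))

lemma loc_monic (A : Finset V) : (loc f A).Monic :=
  monic_prod_of_monic _ _ fun a _ => monic_X_sub_C (f a)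

lemma loc_natDegree (A : Finset V) : (loc f A).natDegree = A.card := by
  rw [loc, natDegree_prod_of_monic _ _ fun a _ => monic_X_sub_C (f a)]
  simp

variable [DecidableEq V]

lemma loc_split (A B : Finset V) : loc f (A ∩ B) * loc f (A \ B) = loc f A := by
  unfold loc
  exact Finset.prod_inter_mul_prod_sdiff A B _

/-- Two sets of the same size with the same first `s` elementary symmetric functions of their
labels differ in more than `s` elements. -/
lemma differ_of_sig (hf : Function.Injective f) {A B : Finset V} (hc : A.card = B.card)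
    (hne : A ≠ B) {s : ℕ}
    (hsig : ∀ j < s, (loc f A).coeff (A.card - 1 - j) = (loc f B).coeff (A.card - 1 - j)) :
    s + 1 ≤ (A \ B).card := by
  by_contra hlt
  have hlt' : (A \ B).card ≤ s := by omega
  have hA := loc_split f A B
  have hB := loc_split f B A
  rw [Finset.inter_comm B A] at hB
  have hD : loc f A - loc f B = loc f (A ∩ B) * (loc f (A \ B) - loc f (B \ A)) := by
    rw [mul_sub, hA, hB]
  have hne2 : (A \ B).Nonempty := by
    rw [Finset.nonempty_iff_ne_empty]
    intro h0
    rw [Finset.sdiff_eq_empty_iff_subset] at h0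
    exact hne (Finset.eq_of_subset_of_card_le h0 (by omega))
  obtain ⟨a, ha⟩ := hne2
  have hdiff : loc f (A \ B) - loc f (B \ A) ≠ 0 := by
    intro h0
    have h1 := congrArg (Polynomial.eval (f a)) h0
    rw [Polynomial.eval_sub, Polynomial.eval_zero] at h1
    have h2 : (loc f (A \ B)).eval (f a) = 0 := by
      unfold loc
      rw [Polynomial.eval_prod]
      exact Finset.prod_eq_zero ha (by simp)
    have h3 : (loc f (B \ A)).eval (f a) ≠ 0 := by
      unfold loc
      rw [Polynomial.eval_prod, Finset.prod_ne_zero_iff]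
      intro b hb
      simp only [eval_sub, eval_X, eval_C]
      intro h4
      have h5 : a = b := hf (sub_eq_zero.mp h4)
      subst h5
      rw [Finset.mem_sdiff] at ha hb
      exact hb.2 ha.1
    rw [h2, zero_sub, neg_eq_zero] at h1
    exact h3 h1
  have hDne : loc f A - loc f B ≠ 0 := by
    rw [hD]; exact mul_ne_zero (loc_monic f _).ne_zero hdiff
  have hdeg : (A ∩ B).card ≤ (loc f A - loc f B).natDegree := by
    rw [hD, Polynomial.natDegree_mul (loc_monic f _).ne_zero hdiff, loc_natDegree]
    exact Nat.le_add_right _ _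
  have hdeg2 : (loc f A - loc f B).natDegree ≤ A.card := by
    refine (Polynomial.natDegree_sub_le _ _).trans ?_
    rw [loc_natDegree, loc_natDegree, ← hc, max_self]
  have hsplit : (A ∩ B).card + (A \ B).card = A.card := Finset.card_inter_add_card_sdiff A B
  set N := (loc f A - loc f B).natDegree with hN
  have hlead : (loc f A - loc f B).coeff N ≠ 0 := by
    rw [hN, Polynomial.coeff_natDegree]
    exact leadingCoeff_ne_zero.mpr hDne
  apply hlead
  rw [Polynomial.coeff_sub]
  by_cases hNc : N = A.card
  · have e1 : (loc f A).coeff N = 1 := by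
      have := (loc_monic f A).coeff_natDegree
      rwa [loc_natDegree, ← hNc] at this
    have e2 : (loc f B).coeff N = 1 := by
      have := (loc_monic f B).coeff_natDegree
      rwa [loc_natDegree, ← hc, ← hNc] at this
    rw [e1, e2, sub_self]
  · have hj := hsig (A.card - 1 - N) (by omega)
    have e3 : A.card - 1 - (A.card - 1 - N) = N := by omega
    rw [e3] at hj
    rw [hj, sub_self]

end Loc

/-- A family of `w`-subsets of an `m`-set with all differences at least `r` can be extended to a
qualitatively independent family on `m + 2 r` points. -/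
lemma card_le_maxQI_of_differences {V : Type u} [Fintype V] [DecidableEq V] {r m : ℕ}
    (hV : Fintype.card V = m) (hr : 1 ≤ r) (G : Finset (Finset V))
    (hG : ∀ A ∈ G, ∀ B ∈ G, A ≠ B → r ≤ (A \ B).card) :
    G.card ≤ maxQI r (m + 2 * r) := by
  classical
  let W := V ⊕ (Fin r ⊕ Fin r)
  have hW : Fintype.card W = m + 2 * r := by
    simp only [W, Fintype.card_sum, Fintype.card_fin, hV]; ring
  let φ : Finset V → Finset W := fun A => A.disjSum (univ.disjSum ∅)
  refine QI.card_le_maxQI_of_map hW G φ hr ?_
  have hin : ∀ A B : Finset V, r ≤ (φ A ∩ φ B).card := by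
    intro A B
    have : ((univ : Finset (Fin r)).image (fun i => (Sum.inr (Sum.inl i) : W))) ⊆
        φ A ∩ φ B := by
      intro x hx
      rw [Finset.mem_image] at hx
      obtain ⟨i, -, rfl⟩ := hx
      simp [φ]
    have h2 := Finset.card_le_card this
    rw [Finset.card_image_of_injective _ (fun i j h => by simpa using h)] at h2
    simpa using h2
  have hout : ∀ A B : Finset V, r ≤ ((φ A)ᶜ ∩ (φ B)ᶜ).card := by
    intro A B
    have : ((univ : Finset (Fin r)).image (fun i => (Sum.inr (Sum.inr i) : W))) ⊆
        (φ A)ᶜ ∩ (φ B)ᶜ := by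
      intro x hx
      rw [Finset.mem_image] at hx
      obtain ⟨i, -, rfl⟩ := hx
      simp [φ]
    have h2 := Finset.card_le_card this
    rw [Finset.card_image_of_injective _ (fun i j h => by simpa using h)] at h2
    simpa using h2
  have hdif : ∀ A B : Finset V, r ≤ (A \ B).card → r ≤ (φ A ∩ (φ B)ᶜ).card := by
    intro A B h
    have : ((A \ B).image (fun i => (Sum.inl i : W))) ⊆ φ A ∩ (φ B)ᶜ := by
      intro x hx
      rw [Finset.mem_image] at hx
      obtain ⟨i, hi, rfl⟩ := hx
      rw [Finset.mem_sdiff] at hi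
      simp [φ, hi.1, hi.2]
    have h2 := Finset.card_le_card this
    rw [Finset.card_image_of_injective _ (fun i j h => by simpa using h)] at h2
    exact h.trans h2
  intro A hA B hB hAB
  refine ⟨hin A B, hdif A B (hG A hA B hB hAB), ?_, hout A B⟩
  rw [Finset.inter_comm]
  exact hdif B A (hG B hB A hA hAB.symm)

/-- The pigeonhole lower bound: for a prime `q ≥ m`. -/
lemma lower_bound_prime {s m w q : ℕ} (hq : q.Prime) (hmq : m ≤ q) :
    m.choose w ≤ q ^ s * maxQI (s + 1) (m + 2 * (s + 1)) := by
  classical
  have : Fact q.Prime := ⟨hq⟩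
  let f : Fin m → ZMod q := fun i => ((i : ℕ) : ZMod q)
  have hf : Function.Injective f := by
    intro i j hij
    have h1 : ((i : ℕ) : ZMod q) = ((j : ℕ) : ZMod q) := hij
    rw [ZMod.natCast_eq_natCast_iff'] at h1
    rw [Nat.mod_eq_of_lt (i.isLt.trans_le hmq), Nat.mod_eq_of_lt (j.isLt.trans_le hmq)] at h1
    exact Fin.ext h1
  let σ : Finset (Fin m) → (Fin s → ZMod q) := fun A j => (loc f A).coeff (w - 1 - j)
  have h1 : (powersetCard w (univ : Finset (Fin m))).card =
      ∑ b : Fin s → ZMod q, ((powersetCard w (univ : Finset (Fin m))).filter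
        (fun A => σ A = b)).card := by
    exact Finset.card_eq_sum_card_fiberwise (fun _ _ => Finset.mem_coe.mpr (mem_univ _))
  rw [Finset.card_powersetCard, Finset.card_univ, Fintype.card_fin] at h1
  rw [h1]
  have h2 : ∀ b : Fin s → ZMod q, ((powersetCard w (univ : Finset (Fin m))).filter
        (fun A => σ A = b)).card ≤ maxQI (s + 1) (m + 2 * (s + 1)) := by
    intro b
    refine card_le_maxQI_of_differences (by simp) (by omega) _ ?_
    intro A hA B hB hAB
    rw [mem_filter, mem_powersetCard] at hA hB
    refine differ_of_sig f hf (hA.1.2.trans hB.1.2.symm) hAB ?_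
    intro j hj
    have h3 : σ A ⟨j, hj⟩ = σ B ⟨j, hj⟩ := by rw [hA.2, hB.2]
    rw [hA.1.2]
    exact h3
  calc ∑ b : Fin s → ZMod q, ((powersetCard w (univ : Finset (Fin m))).filter
        (fun A => σ A = b)).card
      ≤ ∑ _b : Fin s → ZMod q, maxQI (s + 1) (m + 2 * (s + 1)) :=
        Finset.sum_le_sum fun b _ => h2 b
    _ = q ^ s * maxQI (s + 1) (m + 2 * (s + 1)) := by
        rw [Finset.sum_const, smul_eq_mul, Finset.card_univ, Fintype.card_fun, ZMod.card,
          Fintype.card_fin]

/-- The lower bound in the form of the order of magnitude. -/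
lemma lower_order {r n : ℕ} (hr : 1 ≤ r) (hn : 4 * r ≤ n) :
    n.choose (n / 2) ≤ 4 ^ r * (2 * n) ^ (r - 1) * maxQI r n := by
  obtain ⟨q, hq, hlt, hle⟩ := Nat.exists_prime_lt_and_le_two_mul (n - 2 * r) (by omega)
  have h1 := lower_bound_prime (s := r - 1) (m := n - 2 * r) (w := (n - 2 * r) / 2) hq hlt.le
  have e1 : r - 1 + 1 = r := by omega
  have e2 : n - 2 * r + 2 * r = n := by omega
  rw [e1, e2] at h1
  have h2 := central_add_le (n - 2 * r) (2 * r)
  rw [e2] at h2
  calc n.choose (n / 2) ≤ 2 ^ (2 * r) * (n - 2 * r).choose ((n - 2 * r) / 2) := h2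
    _ ≤ 2 ^ (2 * r) * (q ^ (r - 1) * maxQI r n) := Nat.mul_le_mul_left _ h1
    _ ≤ 2 ^ (2 * r) * ((2 * n) ^ (r - 1) * maxQI r n) :=
        Nat.mul_le_mul_left _ (Nat.mul_le_mul_right _ (Nat.pow_le_pow_left (by omega) _))
    _ = 4 ^ r * (2 * n) ^ (r - 1) * maxQI r n := by
        rw [pow_mul]; norm_num; ring

end Pool.Agent.Lib_helper42.QI
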