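import Mathlib
import Pool.Agent.Lib_helper42.QI.Lower

/-!
# Sign vectors and the relative bound
-/

set_option autoImplicit false

namespace Pool.Agent.Lib_helper42.QI

open Finset

universe u v

section Sgn

variable {V : Type u} [DecidableEq V]

/-- The sign vector of a set. -/
def sgn (A : Finset V) (x : V) : ℤ := if x ∈ A then 1 else -1

lemma sgn_mul_self (A : Finset V) (x : V) : sgn A x * sgn A x = 1 := by
  unfold sgn; split_ifs <;> norm_num

lemma sgn_eq (A : Finset V) (x : V) : sgn A x = 1 ∨ sgn A x = -1 := by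
  unfold sgn; split_ifs
  · exact Or.inl rfl
  · exact Or.inr rfl

variable [Fintype V]

lemma sgn_compl (A : Finset V) (x : V) : sgn Aᶜ x = - sgn A x := by
  unfold sgn
  by_cases h : x ∈ A <;> simp [h]

/-- Sum of signs. -/
def ssum (A : Finset V) : ℤ := ∑ x, sgn A x

/-- Inner product of sign vectors. -/
def sip (A B : Finset V) : ℤ := ∑ x, sgn A x * sgn B x

lemma ssum_compl (A : Finset V) : ssum Aᶜ = - ssum A := by
  unfold ssum; simp only [sgn_compl, Finset.sum_neg_distrib]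

lemma sip_compl_right (A B : Finset V) : sip A Bᶜ = - sip A B := by
  unfold sip; simp only [sgn_compl, mul_neg, Finset.sum_neg_distrib]

lemma sip_compl_left (A B : Finset V) : sip Aᶜ B = - sip A B := by
  unfold sip; simp only [sgn_compl, neg_mul, Finset.sum_neg_distrib]

lemma sip_self (A : Finset V) : sip A A = Fintype.card V := by
  unfold sip; simp only [sgn_mul_self]; simp

lemma sip_comm (A B : Finset V) : sip A B = sip B A := by
  unfold sip; exact Finset.sum_congr rfl fun x _ => mul_comm _ _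

lemma four_card_inter (A B : Finset V) :
    4 * ((A ∩ B).card : ℤ) = Fintype.card V + ssum A + ssum B + sip A B := by
  have h : ∀ x : V, (1 : ℤ) + sgn A x + sgn B x + sgn A x * sgn B x =
      if x ∈ A ∩ B then 4 else 0 := by
    intro x
    unfold sgn
    by_cases h1 : x ∈ A <;> by_cases h2 : x ∈ B <;> simp [h1, h2]
  have h2 : ∑ x : V, ((1 : ℤ) + sgn A x + sgn B x + sgn A x * sgn B x) =
      4 * ((A ∩ B).card : ℤ) := by
    simp only [h]
    rw [Finset.sum_ite_mem, Finset.univ_inter, Finset.sum_const, nsmul_eq_mul]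
    ring
  rw [← h2]
  simp only [Finset.sum_add_distrib]
  simp [ssum, sip]

lemma four_card_inter_compl (A B : Finset V) :
    4 * ((A ∩ Bᶜ).card : ℤ) = Fintype.card V + ssum A - ssum B - sip A B := by
  rw [four_card_inter, ssum_compl, sip_compl_right]; ring

lemma four_card_compl_inter (A B : Finset V) :
    4 * ((Aᶜ ∩ B).card : ℤ) = Fintype.card V - ssum A + ssum B - sip A B := by
  rw [four_card_inter, ssum_compl, sip_compl_left]; ring

lemma four_card_compl_inter_compl (A B : Finset V) :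
    4 * ((Aᶜ ∩ Bᶜ).card : ℤ) = Fintype.card V - ssum A - ssum B + sip A B := by
  rw [four_card_inter, ssum_compl, ssum_compl, sip_compl_left, sip_compl_right]; ring

/-- The four conditions in terms of the signs. -/
lemma QI.signs {r : ℕ} {F : Finset (Finset V)} (hF : QI r F) {A B : Finset V} (hA : A ∈ F)
    (hB : B ∈ F) (hAB : A ≠ B) :
    4 * (r : ℤ) ≤ Fintype.card V + ssum A + ssum B + sip A B ∧
    4 * (r : ℤ) ≤ Fintype.card V + ssum A - ssum B - sip A B ∧
    4 * (r : ℤ) ≤ Fintype.card V - ssum A + ssum B - sip A B ∧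
    4 * (r : ℤ) ≤ Fintype.card V - ssum A - ssum B + sip A B := by
  obtain ⟨h1, h2, h3, h4⟩ := hF A hA B hB hAB
  rw [← four_card_inter, ← four_card_inter_compl, ← four_card_compl_inter,
    ← four_card_compl_inter_compl]
  refine ⟨?_, ?_, ?_, ?_⟩ <;> · push_cast [← Nat.cast_le (α := ℤ)] at *; omega

end Sgn

/-- The relative bound for a system of vectors with zero sum. -/
lemma relative_bound {ι : Type v} [DecidableEq ι] {V : Type u} [Fintype V] [DecidableEq V]
    (I : Finset ι) (z : ι → V → ℝ) (d : ι → ℝ) (κ : ℝ) (hV : 0 < Fintype.card V)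
    (hz : ∀ i ∈ I, ∑ x, z i x = 0) (hd : ∀ i ∈ I, ∑ x, z i x * z i x = d i)
    (hpos : ∀ i ∈ I, 0 < d i)
    (hκ : ∀ i ∈ I, ∀ j ∈ I, i ≠ j → (∑ x, z i x * z j x) ^ 2 ≤ κ * (d i * d j)) :
    (I.card : ℝ) ^ 2 ≤ ((Fintype.card V : ℝ) - 1) *
      (I.card + (I.card : ℝ) * ((I.card : ℝ) - 1) * κ) := by
  set n : ℝ := (Fintype.card V : ℝ) with hn
  have hn0 : (0 : ℝ) < n := by rw [hn]; exact_mod_cast hV
  let T : V × V → ℝ := fun p => ∑ i ∈ I, z i p.1 * z i p.2 / d i
  let P : V × V → ℝ := fun p => (if p.1 = p.2 then 1 else 0) - 1 / n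
  have hTP : ∑ p : V × V, T p * P p = I.card := by
    have e1 : ∀ p : V × V, T p * P p = ∑ i ∈ I, (z i p.1 * z i p.2 / d i) * P p := by
      intro p; simp only [T, Finset.sum_mul]
    simp only [e1]
    rw [Finset.sum_comm]
    have e2 : ∀ i ∈ I, ∑ p : V × V, (z i p.1 * z i p.2 / d i) * P p = 1 := by
      intro i hi
      have e3 : ∑ p : V × V, (z i p.1 * z i p.2 / d i) * P p =
          (∑ p : V × V, z i p.1 * z i p.2 * (if p.1 = p.2 then 1 else 0)) / d i -
            (∑ p : V × V, z i p.1 * z i p.2) / n / d i := by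
        rw [Finset.sum_div, Finset.sum_div, Finset.sum_div, ← Finset.sum_sub_distrib]
        refine Finset.sum_congr rfl fun p _ => ?_
        simp only [P]
        ring
      rw [e3]
      have e4 : ∑ p : V × V, z i p.1 * z i p.2 * (if p.1 = p.2 then (1 : ℝ) else 0) = d i := by
        rw [Fintype.sum_prod_type, ← hd i hi]
        refine Finset.sum_congr rfl fun x _ => ?_
        simp
      have e5 : ∑ p : V × V, z i p.1 * z i p.2 = 0 := by
        rw [Fintype.sum_prod_type]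
        simp only [← Finset.mul_sum, hz i hi, mul_zero, Finset.sum_const_zero]
      rw [e4, e5, zero_div, zero_div, sub_zero, div_self (hpos i hi).ne']
    rw [Finset.sum_congr rfl e2, Finset.sum_const, nsmul_eq_mul, mul_one]
  have hPP : ∑ p : V × V, P p ^ 2 = n - 1 := by
    have e1 : ∀ p : V × V, P p ^ 2 = (1 - 2 / n) * (if p.1 = p.2 then 1 else 0) + 1 / n ^ 2 := by
      intro p
      simp only [P]
      split_ifs <;> ring
    simp only [e1, Finset.sum_add_distrib, ← Finset.mul_sum]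
    rw [Fintype.sum_prod_type]
    have e2 : ∀ x : V, ∑ y : V, (if (x, y).1 = (x, y).2 then (1 : ℝ) else 0) = 1 := by
      intro x; simp
    simp only [e2]
    rw [Finset.sum_const, Finset.sum_const, Finset.card_univ, Finset.card_univ,
      Fintype.card_prod, nsmul_eq_mul, nsmul_eq_mul, mul_one, ← hn]
    push_cast
    rw [← hn]
    field_simp
    ring
  have hTT : ∑ p : V × V, T p ^ 2 ≤ I.card + (I.card : ℝ) * ((I.card : ℝ) - 1) * κ := by
    have e1 : ∀ p : V × V, T p ^ 2 = ∑ i ∈ I, ∑ j ∈ I,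
        (z i p.1 * z j p.1) * (z i p.2 * z j p.2) / (d i * d j) := by
      intro p
      simp only [T, pow_two, Finset.sum_mul_sum]
      refine Finset.sum_congr rfl fun i _ => Finset.sum_congr rfl fun j _ => ?_
      rw [div_mul_div_comm]
      ring
    simp only [e1]
    rw [Finset.sum_comm]
    have e2 : ∀ i ∈ I, ∑ p : V × V, ∑ j ∈ I,
        (z i p.1 * z j p.1) * (z i p.2 * z j p.2) / (d i * d j) ≤
          1 + ((I.card : ℝ) - 1) * κ := by
      intro i hi
      rw [Finset.sum_comm]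
      have e3 : ∀ j ∈ I, ∑ p : V × V, (z i p.1 * z j p.1) * (z i p.2 * z j p.2) / (d i * d j) =
          (∑ x, z i x * z j x) ^ 2 / (d i * d j) := by
        intro j _
        rw [← Finset.sum_div, Fintype.sum_prod_type, pow_two, Finset.sum_mul_sum]
      rw [Finset.sum_congr rfl e3, ← Finset.add_sum_erase I _ hi]
      have e4 : (∑ x, z i x * z i x) ^ 2 / (d i * d i) = 1 := by
        rw [hd i hi, pow_two, div_self (mul_pos (hpos i hi) (hpos i hi)).ne']
      have e5 : ∑ j ∈ I.erase i, (∑ x, z i x * z j x) ^ 2 / (d i * d j) ≤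
          ∑ _j ∈ I.erase i, κ := by
        refine Finset.sum_le_sum fun j hj => ?_
        rw [Finset.mem_erase] at hj
        rw [div_le_iff₀ (mul_pos (hpos i hi) (hpos j hj.2))]
        exact hκ i hi j hj.2 hj.1.symm
      rw [Finset.sum_const, nsmul_eq_mul, Finset.card_erase_of_mem hi] at e5
      have hcard : 1 ≤ I.card := Finset.card_pos.mpr ⟨i, hi⟩
      rw [Nat.cast_sub hcard, Nat.cast_one] at e5
      linarith
    refine (Finset.sum_le_sum e2).trans ?_
    rw [Finset.sum_const, nsmul_eq_mul]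
    apply le_of_eq
    ring
  have hn1 : 0 ≤ n - 1 := by
    have : (1 : ℝ) ≤ n := by rw [hn]; exact_mod_cast hV
    linarith
  calc (I.card : ℝ) ^ 2 = (∑ p : V × V, T p * P p) ^ 2 := by rw [hTP]
    _ ≤ (∑ p : V × V, T p ^ 2) * (∑ p : V × V, P p ^ 2) :=
        Finset.sum_mul_sq_le_sq_mul_sq _ _ _
    _ = (n - 1) * ∑ p : V × V, T p ^ 2 := by rw [hPP]; ring
    _ ≤ _ := mul_le_mul_of_nonneg_left hTT hn1

/-- The correlation inequality. -/
lemma corr_le {n t a b c : ℝ} (hn : 0 < n) (ht : t ≤ n) (ha : |a| ≤ t) (hb : |b| ≤ t)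
    (h1 : c ≤ t - (a - b)) (h2 : c ≤ t - (b - a)) (h0 : 0 ≤ n * c - a * b) :
    n ^ 2 * (n * c - a * b) ^ 2 ≤ t ^ 2 * ((n ^ 2 - a ^ 2) * (n ^ 2 - b ^ 2)) := by
  have ht0 : 0 ≤ t := (abs_nonneg a).trans ha
  have habs : c ≤ t - |a - b| := by
    rcases abs_cases (a - b) with ⟨h, -⟩ | ⟨h, -⟩ <;> rw [h] <;> linarith
  set Y := n * |a - b| with hY
  set X := n ^ 2 - a * b with hX
  have ha' := abs_le.mp ha
  have hb' := abs_le.mp hb
  have hY0 : 0 ≤ Y := mul_nonneg hn.le (abs_nonneg _)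
  have hXY : Y ≤ X := by
    rw [hX, hY]
    rcases abs_cases (a - b) with ⟨h, -⟩ | ⟨h, -⟩ <;> rw [h] <;> nlinarith
  have hkey : 0 ≤ n * |a - b| + a * b := by
    have h3 : |a| * |b| ≤ n * (|a| + |b|) := by nlinarith [abs_nonneg a, abs_nonneg b]
    rcases le_total 0 (a * b) with hab | hab
    · exact add_nonneg hY0 hab
    · have h4 : |a - b| = |a| + |b| := by
        rcases mul_nonpos_iff.mp hab with ⟨p, q⟩ | ⟨p, q⟩
        · rw [abs_of_nonneg (by linarith), abs_of_nonneg p, abs_of_nonpos q]; ring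
        · rw [abs_of_nonpos (by linarith), abs_of_nonpos p, abs_of_nonneg q]; ring
      have h5 : a * b = -(|a| * |b|) := by
        rw [← abs_mul, abs_of_nonpos hab]; ring
      rw [h4, h5]
      linarith
  have hle : n * (n * c - a * b) ≤ t * (X - Y) := by
    have e1 : n * (n * c - a * b) ≤ n * (n * (t - |a - b|) - a * b) := by
      apply mul_le_mul_of_nonneg_left _ hn.le
      have := mul_le_mul_of_nonneg_left habs hn.le
      linarith
    have e2 : t * (X - Y) - n * (n * (t - |a - b|) - a * b) =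
        (n - t) * (n * |a - b| + a * b) := by
      rw [hX, hY]; ring
    have e3 : 0 ≤ (n - t) * (n * |a - b| + a * b) := mul_nonneg (by linarith) hkey
    linarith
  have e4 : (n ^ 2 - a ^ 2) * (n ^ 2 - b ^ 2) = X ^ 2 - Y ^ 2 := by
    rw [hX, hY, mul_pow, sq_abs]; ring
  have e5 : (X - Y) ^ 2 ≤ X ^ 2 - Y ^ 2 := by nlinarith
  calc n ^ 2 * (n * c - a * b) ^ 2 = (n * (n * c - a * b)) ^ 2 := by ring
    _ ≤ (t * (X - Y)) ^ 2 := by
        apply pow_le_pow_left₀ (mul_nonneg hn.le h0) hle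
    _ = t ^ 2 * (X - Y) ^ 2 := by ring
    _ ≤ t ^ 2 * (X ^ 2 - Y ^ 2) := mul_le_mul_of_nonneg_left e5 (sq_nonneg t)
    _ = _ := by rw [e4]

lemma corr_le' {n t a b c : ℝ} (hn : 0 < n) (ht : t ≤ n)
    (h1 : -t ≤ a + b + c) (h2 : -t ≤ a - b - c) (h3 : -t ≤ -a + b - c) (h4 : -t ≤ -a - b + c) :
    n ^ 2 * (n * c - a * b) ^ 2 ≤ t ^ 2 * ((n ^ 2 - a ^ 2) * (n ^ 2 - b ^ 2)) := by
  have ha : |a| ≤ t := abs_le.mpr ⟨by linarith, by linarith⟩
  have hb : |b| ≤ t := abs_le.mpr ⟨by linarith, by linarith⟩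
  rcases le_total 0 (n * c - a * b) with h | h
  · exact corr_le hn ht ha hb (by linarith) (by linarith) h
  · have := corr_le (c := -c) (a := a) (b := -b) hn ht ha (by rwa [abs_neg]) (by linarith)
      (by linarith) (by linarith)
    have e1 : n * -c - a * -b = -(n * c - a * b) := by ring
    rw [e1, neg_sq, neg_sq] at this
    exact this

/-- **The relative bound for qualitatively independent families.** -/
lemma relative_upper {r n : ℕ} (hr : 1 ≤ r) (hn : 4 * r ≤ n) :
    (maxQI r n : ℤ) * ((n : ℤ) ^ 2 - ((n : ℤ) - 1) * ((n : ℤ) - 4 * r) ^ 2) ≤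
      ((n : ℤ) - 1) * ((n : ℤ) ^ 2 - ((n : ℤ) - 4 * r) ^ 2) := by
  classical
  obtain ⟨F, hF, e⟩ := exists_maxQI r n
  have h2 := two_le_maxQI hn hr
  have hF2 : 1 < F.card := by omega
  have hn0 : (0 : ℝ) < n := by exact_mod_cast (by omega : 0 < n)
  set t : ℝ := (n : ℝ) - 4 * r with ht
  have hr0 : (1 : ℝ) ≤ r := by exact_mod_cast hr
  have ht0 : 0 ≤ t := by
    have : (4 * r : ℝ) ≤ n := by exact_mod_cast hn
    rw [ht]; linarith
  have htn : t < n := by rw [ht]; linarith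
  let z : Finset (Fin n) → Fin n → ℝ := fun A x => n * (sgn A x : ℝ) - (ssum A : ℝ)
  have hone : ∀ x : Fin n, ∀ A : Finset (Fin n), (sgn A x : ℝ) * (sgn A x : ℝ) = 1 := by
    intro x A; exact_mod_cast sgn_mul_self A x
  have hssum : ∀ A : Finset (Fin n), ∑ x, (sgn A x : ℝ) = (ssum A : ℝ) := by
    intro A; unfold ssum; push_cast; rfl
  have hsip : ∀ A B : Finset (Fin n), ∑ x, (sgn A x : ℝ) * (sgn B x : ℝ) = (sip A B : ℝ) := by
    intro A B; unfold sip; push_cast; rfl
  have hzz : ∀ A B : Finset (Fin n), ∑ x, z A x * z B x =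
      n * (n * (sip A B : ℝ) - (ssum A : ℝ) * (ssum B : ℝ)) := by
    intro A B
    have e1 : ∀ x, z A x * z B x = n ^ 2 * ((sgn A x : ℝ) * (sgn B x : ℝ)) -
        n * (ssum B : ℝ) * (sgn A x : ℝ) - n * (ssum A : ℝ) * (sgn B x : ℝ) +
          (ssum A : ℝ) * (ssum B : ℝ) := by
      intro x; simp only [z]; ring
    simp only [e1, Finset.sum_add_distrib, Finset.sum_sub_distrib, ← Finset.mul_sum, hssum,
      hsip]
    rw [Finset.sum_const, Finset.card_univ, Fintype.card_fin, nsmul_eq_mul]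
    ring
  have hcon : ∀ A ∈ F, ∀ B ∈ F, A ≠ B →
      -t ≤ (ssum A : ℝ) + ssum B + sip A B ∧ -t ≤ (ssum A : ℝ) - ssum B - sip A B ∧
      -t ≤ -(ssum A : ℝ) + ssum B - sip A B ∧ -t ≤ -(ssum A : ℝ) - ssum B + sip A B := by
    intro A hA B hB hAB
    obtain ⟨h1, h2, h3, h4⟩ := hF.signs hA hB hAB
    rw [Fintype.card_fin] at h1 h2 h3 h4
    have h1' : (4 * (r : ℝ)) ≤ n + ssum A + ssum B + sip A B := by exact_mod_cast h1
    have h2' : (4 * (r : ℝ)) ≤ n + ssum A - ssum B - sip A B := by exact_mod_cast h2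
    have h3' : (4 * (r : ℝ)) ≤ n - ssum A + ssum B - sip A B := by exact_mod_cast h3
    have h4' : (4 * (r : ℝ)) ≤ n - ssum A - ssum B + sip A B := by exact_mod_cast h4
    rw [ht]
    refine ⟨?_, ?_, ?_, ?_⟩ <;> linarith
  have hsmall : ∀ A ∈ F, (ssum A : ℝ) ^ 2 < (n : ℝ) ^ 2 := by
    intro A hA
    obtain ⟨B, hB, hAB⟩ := Finset.exists_mem_ne hF2 A
    obtain ⟨h1, h2, h3, h4⟩ := hcon A hA B hB hAB.symm
    apply sq_lt_sq'
    · linarith
    · linarith
  have hrel := relative_bound (V := Fin n) F z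
    (fun A => n * ((n : ℝ) ^ 2 - (ssum A : ℝ) ^ 2)) (t ^ 2 / (n : ℝ) ^ 2) (by simp; omega) ?_ ?_ ?_ ?_
  · rw [Fintype.card_fin] at hrel
    have hFpos : (0 : ℝ) < F.card := by exact_mod_cast (by omega : 0 < F.card)
    have h3 : (F.card : ℝ) ≤ ((n : ℝ) - 1) * (1 + ((F.card : ℝ) - 1) * (t ^ 2 / (n : ℝ) ^ 2)) := by
      have h4 : (F.card : ℝ) * F.card ≤ F.card * (((n : ℝ) - 1) *
          (1 + ((F.card : ℝ) - 1) * (t ^ 2 / (n : ℝ) ^ 2))) := by
        calc (F.card : ℝ) * F.card = (F.card : ℝ) ^ 2 := by ring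
          _ ≤ _ := hrel
          _ = _ := by ring
      exact le_of_mul_le_mul_left h4 hFpos
    have h5 : (F.card : ℝ) * (n : ℝ) ^ 2 ≤
        ((n : ℝ) - 1) * ((n : ℝ) ^ 2 + ((F.card : ℝ) - 1) * t ^ 2) := by
      have h6 := mul_le_mul_of_nonneg_right h3 (sq_nonneg (n : ℝ))
      have e7 : ((n : ℝ) - 1) * (1 + ((F.card : ℝ) - 1) * (t ^ 2 / (n : ℝ) ^ 2)) * (n : ℝ) ^ 2 =
          ((n : ℝ) - 1) * ((n : ℝ) ^ 2 + ((F.card : ℝ) - 1) * t ^ 2) := by
        field_simp
      rw [e7] at h6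
      exact h6
    rw [e] at h5
    have h8 : (maxQI r n : ℝ) * ((n : ℝ) ^ 2 - ((n : ℝ) - 1) * ((n : ℝ) - 4 * r) ^ 2) ≤
      ((n : ℝ) - 1) * ((n : ℝ) ^ 2 - ((n : ℝ) - 4 * r) ^ 2) := by
      rw [← ht]
      nlinarith [h5]
    exact_mod_cast h8
  · intro A _
    simp only [z, Finset.sum_sub_distrib, ← Finset.mul_sum, hssum]
    rw [Finset.sum_const, Finset.card_univ, Fintype.card_fin, nsmul_eq_mul]
    ring
  · intro A _
    rw [hzz, sip_self, Fintype.card_fin]
    push_cast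
    ring
  · intro A hA
    exact mul_pos hn0 (by linarith [hsmall A hA])
  · intro A hA B hB hAB
    obtain ⟨h1, h2, h3, h4⟩ := hcon A hA B hB hAB
    have hc := corr_le' hn0 htn.le h1 h2 h3 h4
    rw [hzz]
    have e9 : ((n : ℝ) * (n * (sip A B : ℝ) - (ssum A : ℝ) * (ssum B : ℝ))) ^ 2 =
        (n : ℝ) ^ 2 * (n * (sip A B : ℝ) - (ssum A : ℝ) * (ssum B : ℝ)) ^ 2 := by ring
    rw [e9]
    refine hc.trans (le_of_eq ?_)
    field_simp

end Pool.Agent.Lib_helper42.QI
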