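import Mathlib
import Pool.Agent.Lib_helper42.QI.Signs

/-!
# Exact values for `n ≤ 4 r + 1`
-/

set_option autoImplicit false

namespace Pool.Agent.Lib_helper42.QI

open Finset Matrix

universe u v

/-- A system of sign vectors with suitable inner products gives a family. -/
lemma le_maxQI_of_gram {V : Type u} [Fintype V] [DecidableEq V] {ι : Type v}
    {r n : ℕ} (hV : Fintype.card V = n) (hr : 1 ≤ r) (I : Finset ι)
    (x : ι → V → ℤ) (x0 : V → ℤ) (hx : ∀ i v, x i v = 1 ∨ x i v = -1)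
    (hx0 : ∀ v, x0 v = 1 ∨ x0 v = -1)
    (h : ∀ i ∈ I, ∀ k ∈ I, i ≠ k →
      4 * (r : ℤ) ≤ n + ∑ v, x0 v * x i v + ∑ v, x0 v * x k v + ∑ v, x i v * x k v ∧
      4 * (r : ℤ) ≤ n + ∑ v, x0 v * x i v - ∑ v, x0 v * x k v - ∑ v, x i v * x k v ∧
      4 * (r : ℤ) ≤ n - ∑ v, x0 v * x i v + ∑ v, x0 v * x k v - ∑ v, x i v * x k v ∧
      4 * (r : ℤ) ≤ n - ∑ v, x0 v * x i v - ∑ v, x0 v * x k v + ∑ v, x i v * x k v) :
    I.card ≤ maxQI r n := by
  classical
  let A : ι → Finset V := fun i => univ.filter (fun v => x0 v * x i v = 1)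
  have hsgn : ∀ i v, sgn (A i) v = x0 v * x i v := by
    intro i v
    unfold sgn
    simp only [A, mem_filter, mem_univ, true_and]
    rcases hx i v with h1 | h1 <;> rcases hx0 v with h2 | h2 <;> rw [h1, h2] <;> norm_num
  have hss : ∀ i, ssum (A i) = ∑ v, x0 v * x i v := by
    intro i; unfold ssum; simp only [hsgn]
  have hsi : ∀ i k, sip (A i) (A k) = ∑ v, x i v * x k v := by
    intro i k
    unfold sip
    refine Finset.sum_congr rfl fun v _ => ?_
    rw [hsgn, hsgn]
    rcases hx0 v with h2 | h2 <;> rw [h2] <;> ring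
  have key : ∀ i ∈ I, ∀ k ∈ I, i ≠ k → r ≤ (A i ∩ A k).card ∧ r ≤ (A i ∩ (A k)ᶜ).card ∧
      r ≤ ((A i)ᶜ ∩ A k).card ∧ r ≤ ((A i)ᶜ ∩ (A k)ᶜ).card := by
    intro i hi k hk hik
    obtain ⟨h1, h2, h3, h4⟩ := h i hi k hk hik
    rw [← hV, ← hss, ← hss, ← hsi] at h1 h2 h3 h4
    rw [← four_card_inter] at h1
    rw [← four_card_inter_compl] at h2
    rw [← four_card_compl_inter] at h3
    rw [← four_card_compl_inter_compl] at h4
    omega
  have hinj : Set.InjOn A (I : Set ι) := by
    intro i hi k hk hik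
    by_contra hne
    have := (key i hi k hk hne).2.1
    rw [hik, Finset.inter_compl] at this
    simp at this
    omega
  have hQ : QI r (I.image A) := by
    intro X hX Y hY hXY
    rw [Finset.mem_image] at hX hY
    obtain ⟨i, hi, rfl⟩ := hX
    obtain ⟨k, hk, rfl⟩ := hY
    exact key i hi k hk (fun hh => hXY (by rw [hh]))
  have := le_maxQI hV hQ
  rwa [Finset.card_image_of_injOn hinj] at this

lemma maxQI_four_mul_le {r : ℕ} (hr : 1 ≤ r) : maxQI r (4 * r) ≤ 4 * r - 1 := by
  have h := relative_upper hr (le_refl (4 * r))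
  push_cast at h
  have e1 : (4 * (r : ℤ) - 4 * r) = 0 := by ring
  rw [e1] at h
  have hpos : (0 : ℤ) < (4 * (r : ℤ)) ^ 2 := by positivity
  have h2 : (maxQI r (4 * r) : ℤ) ≤ 4 * r - 1 := by
    have h3 : (maxQI r (4 * r) : ℤ) * (4 * (r : ℤ)) ^ 2 ≤ (4 * r - 1) * (4 * (r : ℤ)) ^ 2 := by
      linarith
    exact le_of_mul_le_mul_right h3 hpos
  omega

lemma maxQI_four_mul_add_one_le {r : ℕ} (hr : 1 ≤ r) : maxQI r (4 * r + 1) ≤ 4 * r := by
  have h := relative_upper (n := 4 * r + 1) hr (by omega)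
  push_cast at h
  have e1 : (4 * (r : ℤ) + 1 - 4 * r) = 1 := by ring
  rw [e1] at h
  by_contra hcon
  have h2 : (4 * (r : ℤ) + 1) ≤ maxQI r (4 * r + 1) := by omega
  have hr' : (1 : ℤ) ≤ r := by exact_mod_cast hr
  have hpos : (0 : ℤ) ≤ (4 * (r : ℤ) + 1) ^ 2 - ((4 * (r : ℤ) + 1) - 1) * 1 ^ 2 := by nlinarith
  have h3 := mul_le_mul_of_nonneg_right h2 hpos
  nlinarith

/-- In the case `n = 4 r` all sums and inner products vanish. -/
lemma QI.signs_zero {V : Type u} [Fintype V] [DecidableEq V] {r : ℕ} {F : Finset (Finset V)}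
    (hV : Fintype.card V = 4 * r) (hF : QI r F) {A B : Finset V} (hA : A ∈ F) (hB : B ∈ F)
    (hAB : A ≠ B) : ssum A = 0 ∧ sip A B = 0 := by
  obtain ⟨h1, h2, h3, h4⟩ := hF.signs hA hB hAB
  rw [hV] at h1 h2 h3 h4
  push_cast at h1 h2 h3 h4
  constructor <;> linarith

/-- In the case `n = 4 r + 1` the three inner products are `± 1` with product `1`. -/
lemma QI.signs_one {V : Type u} [Fintype V] [DecidableEq V] {r : ℕ} {F : Finset (Finset V)}
    (hV : Fintype.card V = 4 * r + 1) (hF : QI r F) {A B : Finset V} (hA : A ∈ F) (hB : B ∈ F)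
    (hAB : A ≠ B) : (ssum A = 1 ∨ ssum A = -1) ∧ ssum A * ssum B * sip A B = 1 := by
  obtain ⟨h1, h2, h3, h4⟩ := hF.signs hA hB hAB
  have c1 := four_card_inter A B
  have c2 := four_card_inter_compl A B
  have c3 := four_card_compl_inter A B
  have c4 := four_card_compl_inter_compl A B
  rw [hV] at h1 h2 h3 h4 c1 c2 c3 c4
  push_cast at h1 h2 h3 h4 c1 c2 c3 c4
  have hcases : (ssum A = 1 ∧ ssum B = 1 ∧ sip A B = 1) ∨
      (ssum A = 1 ∧ ssum B = -1 ∧ sip A B = -1) ∨
      (ssum A = -1 ∧ ssum B = 1 ∧ sip A B = -1) ∨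
      (ssum A = -1 ∧ ssum B = -1 ∧ sip A B = 1) := by omega
  rcases hcases with ⟨p, q, s⟩ | ⟨p, q, s⟩ | ⟨p, q, s⟩ | ⟨p, q, s⟩ <;> rw [p, q, s] <;> norm_num

/-- A Hadamard matrix of order `4 s` gives `4 s - 1` sets on `4 s` points. -/
lemma maxQI_of_hadamard {r : ℕ} (hr : 1 ≤ r) (H : Matrix (Fin (4 * r)) (Fin (4 * r)) ℤ)
    (hH : H.IsHadamard) : maxQI r (4 * r) = 4 * r - 1 := by
  apply le_antisymm (maxQI_four_mul_le hr)
  have hpm : ∀ i j, H i j = 1 ∨ H i j = -1 := fun i j =>
    Unitary.mem_iff_eq_one_or_eq_neg_one.mp (hH.apply_mem i j)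
  have horth : ∀ i k, i ≠ k → ∑ j, H i j * H k j = 0 := by
    intro i k hik
    have := congrFun (congrFun hH.mul_conjTranspose i) k
    simpa [Matrix.mul_apply, hik] using this
  let i0 : Fin (4 * r) := ⟨0, by omega⟩
  have := le_maxQI_of_gram (V := Fin (4 * r)) (r := r) (n := 4 * r) (by simp) hr
    (univ.erase i0) (fun i => H i) (H i0) hpm (fun v => hpm i0 v) ?_
  · rwa [Finset.card_erase_of_mem (mem_univ _), Finset.card_univ, Fintype.card_fin] at this
  · intro i hi k hk hik
    rw [Finset.mem_erase] at hi hk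
    rw [horth i0 i (Ne.symm hi.1), horth i0 k (Ne.symm hk.1), horth i k hik]
    push_cast
    refine ⟨?_, ?_, ?_, ?_⟩ <;> linarith

/-- The matrix of a family: first row all ones, the other rows the (signed) sign vectors. -/
lemma exists_matrix_of_family {V : Type u} [Fintype V] [DecidableEq V] {N : ℕ}
    (hV : Fintype.card V = N) (F : Finset (Finset V)) (hF : F.card + 1 = N) (ε : Finset V → ℤ)
    (hε : ∀ A ∈ F, ε A = 1 ∨ ε A = -1) (g : ℤ)
    (hs : ∀ A ∈ F, ε A * ssum A = g)
    (hi : ∀ A ∈ F, ∀ B ∈ F, A ≠ B → ε A * ε B * sip A B = g) :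
    ∃ H : Matrix (Fin N) (Fin N) ℤ, (∀ i j, H i j = 1 ∨ H i j = -1) ∧
      ∀ i k, ∑ j, H i j * H k j = if i = k then (N : ℤ) else g := by
  classical
  have hcard : Fintype.card (Option {A // A ∈ F}) = N := by
    rw [Fintype.card_option, Fintype.card_coe, hF]
  let e : Fin N ≃ Option {A // A ∈ F} := (Fintype.equivFinOfCardEq hcard).symm
  let e' : Fin N ≃ V := (Fintype.equivFinOfCardEq hV).symm
  let R : Option {A // A ∈ F} → V → ℤ := fun o v =>
    match o with
    | none => 1
    | some A => ε A.1 * sgn A.1 v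
  have hR : ∀ o v, R o v = 1 ∨ R o v = -1 := by
    intro o v
    match o with
    | none => exact Or.inl rfl
    | some A =>
      show ε A.1 * sgn A.1 v = 1 ∨ ε A.1 * sgn A.1 v = -1
      rcases hε A.1 A.2 with h1 | h1 <;> rcases sgn_eq A.1 v with h2 | h2 <;> rw [h1, h2] <;>
        norm_num
  have hRR : ∀ o o', ∑ v, R o v * R o' v = if o = o' then (N : ℤ) else g := by
    intro o o'
    by_cases hoo : o = o'
    · subst hoo
      rw [if_pos rfl]
      have : ∀ v, R o v * R o v = 1 := by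
        intro v; rcases hR o v with h | h <;> rw [h] <;> norm_num
      simp only [this]
      rw [Finset.sum_const, Finset.card_univ, hV, nsmul_eq_mul, mul_one]
    · rw [if_neg hoo]
      match o, o' with
      | none, none => exact absurd rfl hoo
      | none, some A =>
        show ∑ v, (1 : ℤ) * (ε A.1 * sgn A.1 v) = g
        simp only [one_mul, ← Finset.mul_sum]
        exact hs A.1 A.2
      | some A, none =>
        show ∑ v, (ε A.1 * sgn A.1 v) * (1 : ℤ) = g
        simp only [mul_one, ← Finset.mul_sum]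
        exact hs A.1 A.2
      | some A, some B =>
        have hAB : A.1 ≠ B.1 := fun hh => hoo (by rw [Subtype.ext hh])
        show ∑ v, (ε A.1 * sgn A.1 v) * (ε B.1 * sgn B.1 v) = g
        have e1 : ∀ v, (ε A.1 * sgn A.1 v) * (ε B.1 * sgn B.1 v) =
            ε A.1 * ε B.1 * (sgn A.1 v * sgn B.1 v) := fun v => by ring
        simp only [e1, ← Finset.mul_sum]
        exact hi A.1 A.2 B.1 B.2 hAB
  refine ⟨fun i j => R (e i) (e' j), fun i j => hR _ _, ?_⟩
  intro i k
  have e2 : ∑ j, R (e i) (e' j) * R (e k) (e' j) = ∑ v, R (e i) v * R (e k) v :=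
    Equiv.sum_comp e' (fun v => R (e i) v * R (e k) v)
  rw [e2, hRR]
  simp only [EmbeddingLike.apply_eq_iff_eq]

/-- If `M_r(4r) = 4r - 1` then there is a Hadamard matrix of order `4r`. -/
lemma hadamard_of_maxQI {r : ℕ} (hr : 1 ≤ r) (h : maxQI r (4 * r) = 4 * r - 1) :
    ∃ H : Matrix (Fin (4 * r)) (Fin (4 * r)) ℤ, H.IsHadamard := by
  obtain ⟨F, hF, e⟩ := exists_maxQI r (4 * r)
  have hF2 : 1 < F.card := by omega
  obtain ⟨H, hH, hHH⟩ := exists_matrix_of_family (V := Fin (4 * r)) (N := 4 * r) (by simp) F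
    (by omega) (fun _ => 1) (fun _ _ => Or.inl rfl) 0 (by
      intro A hA
      obtain ⟨B, hB, hAB⟩ := Finset.exists_mem_ne hF2 A
      rw [(hF.signs_zero (by simp) hA hB hAB.symm).1]; norm_num) (by
      intro A hA B hB hAB
      rw [(hF.signs_zero (by simp) hA hB hAB).2]; norm_num)
  refine ⟨H, ?_⟩
  refine Matrix.IsHadamard.of_mul_conjTranspose ?_ ?_ ?_
  · intro i j
    exact Unitary.mem_iff_eq_one_or_eq_neg_one.mpr (hH i j)
  · ext i k
    rw [Matrix.mul_apply]
    have := hHH i k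
    simp only [Matrix.conjTranspose_apply, star_trivial, Matrix.smul_apply, Matrix.one_apply,
      smul_eq_mul, mul_ite, mul_one, mul_zero]
    rw [this]
    simp
  · rw [Fintype.card_fin]
    have : ((4 * r : ℕ) : ℤ) ≠ 0 := by exact_mod_cast (by omega : 4 * r ≠ 0)
    exact IsRegular.of_ne_zero this

/-- A square sign matrix of order `4 r + 1` with all inner products of distinct rows equal to `1`
gives `4 r` sets. -/
lemma maxQI_of_barba {r : ℕ} (hr : 1 ≤ r) (H : Matrix (Fin (4 * r + 1)) (Fin (4 * r + 1)) ℤ)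
    (hpm : ∀ i j, H i j = 1 ∨ H i j = -1)
    (hip : ∀ i k, i ≠ k → ∑ j, H i j * H k j = 1) : maxQI r (4 * r + 1) = 4 * r := by
  apply le_antisymm (maxQI_four_mul_add_one_le hr)
  have := le_maxQI_of_gram (V := Fin (4 * r + 1)) (r := r) (n := 4 * r + 1) (by simp) hr
    (univ.erase 0) (fun i => H i) (H 0) hpm (fun v => hpm 0 v) ?_
  · rwa [Finset.card_erase_of_mem (mem_univ _), Finset.card_univ, Fintype.card_fin,
      Nat.add_sub_cancel] at this
  · intro i hi k hk hik
    rw [Finset.mem_erase] at hi hk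
    rw [hip 0 i (Ne.symm hi.1), hip 0 k (Ne.symm hk.1), hip i k hik]
    push_cast
    refine ⟨?_, ?_, ?_, ?_⟩ <;> linarith

lemma barba_of_maxQI {r : ℕ} (hr : 1 ≤ r) (h : maxQI r (4 * r + 1) = 4 * r) :
    ∃ H : Matrix (Fin (4 * r + 1)) (Fin (4 * r + 1)) ℤ, (∀ i j, H i j = 1 ∨ H i j = -1) ∧
      ∀ i k, ∑ j, H i j * H k j = if i = k then ((4 * r + 1 : ℕ) : ℤ) else 1 := by
  obtain ⟨F, hF, e⟩ := exists_maxQI r (4 * r + 1)
  have hF2 : 1 < F.card := by omega
  have hs : ∀ A ∈ F, ssum A = 1 ∨ ssum A = -1 := by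
    intro A hA
    obtain ⟨B, hB, hAB⟩ := Finset.exists_mem_ne hF2 A
    exact (hF.signs_one (by simp) hA hB hAB.symm).1
  refine exists_matrix_of_family (V := Fin (4 * r + 1)) (N := 4 * r + 1) (by simp) F
    (by omega) ssum hs 1 ?_ ?_
  · intro A hA
    rcases hs A hA with h1 | h1 <;> rw [h1] <;> norm_num
  · intro A hA B hB hAB
    exact (hF.signs_one (by simp) hA hB hAB).2

/-- If there is a sign matrix of order `4 r + 1` with all inner products of distinct rows equal
to `1`, then `8 r + 1` is a square. -/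
lemma isSquare_of_barba {r : ℕ} (hr : 1 ≤ r)
    (H : Matrix (Fin (4 * r + 1)) (Fin (4 * r + 1)) ℤ)
    (hpm : ∀ i j, H i j = 1 ∨ H i j = -1)
    (hip : ∀ i k, ∑ j, H i j * H k j = if i = k then ((4 * r + 1 : ℕ) : ℤ) else 1) :
    IsSquare (8 * r + 1) := by
  classical
  let n := 4 * r + 1
  let K : Matrix (Fin n) (Fin n) ℚ := fun i j => (H i j : ℚ)
  let J : Matrix (Fin n) (Fin n) ℚ := fun _ _ => 1
  have hJJ : J * J = ((4 * r + 1 : ℕ) : ℚ) • J := by
    ext i j
    rw [Matrix.mul_apply, Matrix.smul_apply]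
    simp [J, n]
  have hKK : K * Kᵀ = (4 * r : ℚ) • (1 : Matrix (Fin n) (Fin n) ℚ) + J := by
    ext i k
    rw [Matrix.mul_apply, Matrix.add_apply, Matrix.smul_apply, Matrix.one_apply]
    have h1 : ∑ j, K i j * Kᵀ j k = ((∑ j, H i j * H k j : ℤ) : ℚ) := by
      push_cast
      rfl
    rw [h1, hip i k]
    by_cases hik : i = k
    · rw [if_pos hik, if_pos hik]; simp [J]
    · rw [if_neg hik, if_neg hik]; simp [J]
  have hinv : K * (Kᵀ * ((8 * r + 1 : ℚ) • (1 : Matrix (Fin n) (Fin n) ℚ) - J)) =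
      (4 * r * (8 * r + 1) : ℚ) • (1 : Matrix (Fin n) (Fin n) ℚ) := by
    rw [← Matrix.mul_assoc, hKK, Matrix.mul_sub, Matrix.add_mul, Matrix.add_mul, hJJ]
    simp only [Matrix.smul_mul, Matrix.one_mul, Matrix.mul_smul, Matrix.mul_one]
    ext i j
    have hJa : J i j = 1 := rfl
    simp only [Matrix.sub_apply, Matrix.add_apply, Matrix.smul_apply, smul_eq_mul, hJa]
    push_cast
    ring
  have hc : (4 * r * (8 * r + 1) : ℚ) ≠ 0 := by positivity
  have hinv2 : (Kᵀ * ((8 * r + 1 : ℚ) • (1 : Matrix (Fin n) (Fin n) ℚ) - J)) * K =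
      (4 * r * (8 * r + 1) : ℚ) • (1 : Matrix (Fin n) (Fin n) ℚ) := by
    have h1 : K * ((4 * r * (8 * r + 1) : ℚ)⁻¹ •
        (Kᵀ * ((8 * r + 1 : ℚ) • (1 : Matrix (Fin n) (Fin n) ℚ) - J))) = 1 := by
      rw [Matrix.mul_smul, hinv, smul_smul, inv_mul_cancel₀ hc, one_smul]
    have h2 := mul_eq_one_comm.mp h1
    rw [Matrix.smul_mul] at h2
    calc (Kᵀ * ((8 * r + 1 : ℚ) • (1 : Matrix (Fin n) (Fin n) ℚ) - J)) * K
        = (4 * r * (8 * r + 1) : ℚ) • ((4 * r * (8 * r + 1) : ℚ)⁻¹ •
          ((Kᵀ * ((8 * r + 1 : ℚ) • (1 : Matrix (Fin n) (Fin n) ℚ) - J)) * K)) := by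
            rw [smul_smul, mul_inv_cancel₀ hc, one_smul]
      _ = _ := by rw [h2]
  -- the (0,0) entry
  let j0 : Fin n := ⟨0, by omega⟩
  have h3 := congrFun (congrFun hinv2 j0) j0
  have hcol : ∑ i, K i j0 * K i j0 = 4 * r + 1 := by
    have : ∀ i, K i j0 * K i j0 = 1 := by
      intro i
      rcases hpm i j0 with h | h <;> simp only [K, h] <;> norm_num
    simp only [this]
    simp [n]
  have h4 : ((Kᵀ * ((8 * r + 1 : ℚ) • (1 : Matrix (Fin n) (Fin n) ℚ) - J)) * K) j0 j0 =
      (8 * r + 1) * (∑ i, K i j0 * K i j0) - (∑ i, K i j0) ^ 2 := by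
    rw [Matrix.mul_sub, Matrix.sub_mul, Matrix.sub_apply, Matrix.mul_smul, Matrix.mul_one,
      Matrix.smul_mul, Matrix.smul_apply, Matrix.mul_apply, smul_eq_mul]
    congr 1
    rw [Matrix.mul_apply]
    have : ∀ i, (Kᵀ * J) j0 i = ∑ i, K i j0 := by
      intro i
      rw [Matrix.mul_apply]
      simp [J]
    simp only [this, ← Finset.mul_sum]
    rw [pow_two]
  rw [h4, hcol, Matrix.smul_apply, Matrix.one_apply_eq, smul_eq_mul, mul_one] at h3
  have h5 : (∑ i, K i j0) ^ 2 = 8 * r + 1 := by linarith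
  have h6 : (∑ i, H i j0) ^ 2 = 8 * r + 1 := by
    have : (((∑ i, H i j0) ^ 2 : ℤ) : ℚ) = ((8 * r + 1 : ℤ) : ℚ) := by
      push_cast
      exact h5
    exact_mod_cast this
  refine ⟨(∑ i, H i j0).natAbs, ?_⟩
  have h7 : ((∑ i, H i j0).natAbs : ℤ) ^ 2 = 8 * r + 1 := by rw [Int.natAbs_pow_two]; exact h6
  have h8 : ((∑ i, H i j0).natAbs) ^ 2 = 8 * r + 1 := by exact_mod_cast h7
  rw [← h8, pow_two]

lemma maxQI_add_one_of_not_isSquare {r : ℕ} (hr : 1 ≤ r) (h : ¬ IsSquare (8 * r + 1)) :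
    maxQI r (4 * r + 1) ≤ 4 * r - 1 := by
  by_contra hcon
  have h1 := maxQI_four_mul_add_one_le hr
  have h2 : maxQI r (4 * r + 1) = 4 * r := by omega
  obtain ⟨H, hpm, hip⟩ := barba_of_maxQI hr h2
  exact h (isSquare_of_barba hr H hpm hip)

section Paley

variable {K : Type u} [Field K] [Fintype K] [DecidableEq K]

lemma paley_sum (hK : ringChar K ≠ 2) {i k : K} (hik : i ≠ k) :
    ∑ y : K, quadraticChar K (y - i) * quadraticChar K (y - k) = -1 := by
  have hχ := quadraticChar_ne_one hK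
  have hJ := jacobiSum_nontrivial_inv hχ
  have hinv : (quadraticChar K)⁻¹ = quadraticChar K := (quadraticChar_isQuadratic (F := K)).inv
  rw [hinv] at hJ
  unfold jacobiSum at hJ
  set a := k - i with ha
  have ha0 : a ≠ 0 := sub_ne_zero.mpr hik.symm
  have e1 : ∑ y : K, quadraticChar K (y - i) * quadraticChar K (y - k) =
      ∑ x : K, quadraticChar K (-1) * (quadraticChar K x * quadraticChar K (1 - x)) := by
    symm
    refine Fintype.sum_bijective (fun x => i + a * x) ?_ _ _ ?_
    · constructor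
      · intro x y hxy
        exact mul_left_cancel₀ ha0 (add_left_cancel hxy)
      · intro y
        exact ⟨a⁻¹ * (y - i), by simp only; field_simp; ring⟩
    · intro x
      have e2 : i + a * x - i = a * x := by ring
      have e3 : i + a * x - k = -1 * a * (1 - x) := by rw [ha]; ring
      rw [e2, e3, map_mul, map_mul, map_mul]
      have e4 := quadraticChar_sq_one (F := K) ha0
      calc quadraticChar K (-1) * (quadraticChar K x * quadraticChar K (1 - x))
          = (quadraticChar K a) ^ 2 * (quadraticChar K (-1) *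
            (quadraticChar K x * quadraticChar K (1 - x))) := by rw [e4, one_mul]
        _ = _ := by ring
  rw [e1, ← Finset.mul_sum, hJ]
  have e5 := quadraticChar_sq_one (F := K) (a := -1) (neg_ne_zero.mpr one_ne_zero)
  linarith [e5, sq (quadraticChar K (-1))]

/-- The Paley family. -/
lemma maxQI_of_paley {r : ℕ} (hr : 1 ≤ r) (hK : Fintype.card K = 4 * r - 1) :
    maxQI r (4 * r) = 4 * r - 1 := by
  classical
  apply le_antisymm (maxQI_four_mul_le hr)
  have hchar : ringChar K ≠ 2 := by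
    intro hh
    have := FiniteField.even_card_of_char_two hh
    omega
  have hneg : quadraticChar K (-1) = -1 := by
    rw [quadraticChar_neg_one hchar, hK]
    rw [ZMod.χ₄_nat_three_mod_four (by omega)]
  let x : K → Option K → ℤ := fun i o =>
    match o with
    | none => 1
    | some y => quadraticChar K (y - i) - if y = i then 1 else 0
  have hx : ∀ i v, x i v = 1 ∨ x i v = -1 := by
    intro i v
    match v with
    | none => exact Or.inl rfl
    | some y =>
      show quadraticChar K (y - i) - (if y = i then 1 else 0) = 1 ∨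
        quadraticChar K (y - i) - (if y = i then 1 else 0) = -1
      by_cases hy : y = i
      · right
        rw [if_pos hy, hy, sub_self, MulChar.map_zero]; norm_num
      · rw [if_neg hy, sub_zero]
        exact quadraticChar_dichotomy (sub_ne_zero.mpr hy)
  have hs : ∀ i, ∑ v, (1 : ℤ) * x i v = 0 := by
    intro i
    rw [Fintype.sum_option]
    show 1 * 1 + ∑ y : K, 1 * (quadraticChar K (y - i) - (if y = i then 1 else 0)) = 0
    simp only [one_mul, Finset.sum_sub_distrib]
    have e1 : ∑ y : K, quadraticChar K (y - i) = 0 := by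
      rw [← quadraticChar_sum_zero hchar]
      exact Fintype.sum_bijective (fun y => y - i) (Equiv.subRight i).bijective _ _ (fun _ => rfl)
    rw [e1]
    simp
  have hc : ∀ i k, i ≠ k → ∑ v, x i v * x k v = 0 := by
    intro i k hik
    rw [Fintype.sum_option]
    show 1 * 1 + ∑ y : K, (quadraticChar K (y - i) - (if y = i then 1 else 0)) *
      (quadraticChar K (y - k) - (if y = k then 1 else 0)) = 0
    have e1 : ∀ y : K, (quadraticChar K (y - i) - (if y = i then 1 else 0)) *
      (quadraticChar K (y - k) - (if y = k then 1 else 0)) =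
        quadraticChar K (y - i) * quadraticChar K (y - k) -
          (if y = k then quadraticChar K (k - i) else 0) -
          (if y = i then quadraticChar K (i - k) else 0) := by
      intro y
      by_cases h1 : y = i
      · subst h1
        rw [if_pos rfl, if_neg hik, if_neg hik, if_pos rfl]
        ring
      · by_cases h2 : y = k
        · subst h2
          rw [if_neg h1, if_pos rfl, if_pos rfl, if_neg h1]
          ring
        · rw [if_neg h1, if_neg h2, if_neg h2, if_neg h1]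
          ring
    simp only [e1, Finset.sum_sub_distrib]
    rw [paley_sum hchar hik, Finset.sum_ite_eq' univ k, Finset.sum_ite_eq' univ i,
      if_pos (mem_univ _), if_pos (mem_univ _)]
    have e2 : quadraticChar K (i - k) = - quadraticChar K (k - i) := by
      have : i - k = -1 * (k - i) := by ring
      rw [this, map_mul, hneg]; ring
    rw [e2]; ring
  have := le_maxQI_of_gram (V := Option K) (r := r) (n := 4 * r)
    (by rw [Fintype.card_option, hK]; omega) hr
    (univ : Finset K) x (fun _ => 1) hx (fun _ => Or.inl rfl) ?_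
  · rwa [Finset.card_univ, hK] at this
  · intro i _ k _ hik
    rw [hs i, hs k, hc i k hik]
    push_cast
    refine ⟨?_, ?_, ?_, ?_⟩ <;> linarith

end Paley

lemma maxQI_of_isPrimePow {r : ℕ} (hr : 1 ≤ r) (h : IsPrimePow (4 * r - 1)) :
    maxQI r (4 * r) = 4 * r - 1 := by
  classical
  rw [isPrimePow_nat_iff] at h
  obtain ⟨p, k, hp, hk, hpk⟩ := h
  have : Fact p.Prime := ⟨hp⟩
  have : Fintype (GaloisField p k) := Fintype.ofFinite _
  have hcard : Fintype.card (GaloisField p k) = 4 * r - 1 := by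
    rw [← Nat.card_eq_fintype_card, GaloisField.card p k hk.ne', hpk]
  exact maxQI_of_paley hr hcard

end Pool.Agent.Lib_helper42.QI
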