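import Mathlib
import Pool.Agent.Lib_helper42.QI.Upper

/-!
# The two-sided LYM bound
-/

set_option autoImplicit false

namespace Pool.Agent.Lib_helper42.QI

open Finset

universe u

/-- The LYM inequality for families with all differences of size at least `a + b + 1`:
delete `a` elements and add `b` elements. -/
lemma lym_two_sided {V : Type u} [Fintype V] [DecidableEq V] {a b n : ℕ}
    (hn : Fintype.card V = n) (G : Finset (Finset V))
    (hG : ∀ X ∈ G, ∀ Y ∈ G, X ≠ Y → a + b + 1 ≤ (X \ Y).card)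
    :
    ∑ X ∈ G, (((X.card.choose a * (n - X.card).choose b : ℕ) : ℚ) /
      ((n.choose (X.card - a + b) : ℕ) : ℚ)) ≤ 1 := by
  classical
  have hcompl : ∀ X : Finset V, Xᶜ.card = n - X.card := by
    intro X; rw [Finset.card_compl, hn]
  let P : Finset V → Finset (Finset V × Finset V) := fun X =>
    powersetCard a X ×ˢ powersetCard b Xᶜ
  let φ : Finset V → Finset V × Finset V → Finset V := fun X p => (X \ p.1) ∪ p.2
  have hφ1 : ∀ X : Finset V, ∀ p ∈ P X, X \ φ X p = p.1 := by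
    intro X p hp
    rw [Finset.mem_product, mem_powersetCard, mem_powersetCard] at hp
    obtain ⟨⟨h1, -⟩, ⟨h2, -⟩⟩ := hp
    ext x
    simp only [φ, mem_sdiff, mem_union]
    constructor
    · rintro ⟨hx, h3⟩
      by_contra h4
      exact h3 (Or.inl ⟨hx, h4⟩)
    · intro hx
      refine ⟨h1 hx, ?_⟩
      rintro (⟨-, h4⟩ | h4)
      · exact h4 hx
      · have := h2 h4
        rw [mem_compl] at this
        exact this (h1 hx)
  have hφ2 : ∀ X : Finset V, ∀ p ∈ P X, φ X p \ X = p.2 := by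
    intro X p hp
    rw [Finset.mem_product, mem_powersetCard, mem_powersetCard] at hp
    obtain ⟨⟨h1, -⟩, ⟨h2, -⟩⟩ := hp
    ext x
    simp only [φ, mem_sdiff, mem_union]
    constructor
    · rintro ⟨⟨h3, -⟩ | h3, h4⟩
      · exact absurd h3 h4
      · exact h3
    · intro hx
      have := h2 hx
      rw [mem_compl] at this
      exact ⟨Or.inr hx, this⟩
  have hcardφ : ∀ X ∈ G, ∀ p ∈ P X, (φ X p).card = X.card - a + b := by
    intro X hX p hp
    have h1 := hφ1 X p hp
    have h2 := hφ2 X p hp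
    rw [Finset.mem_product, mem_powersetCard, mem_powersetCard] at hp
    obtain ⟨⟨h3, h4⟩, ⟨h5, h6⟩⟩ := hp
    have hd : Disjoint (X \ p.1) p.2 := by
      rw [Finset.disjoint_left]
      intro x hx hx2
      have := h5 hx2
      rw [mem_compl] at this
      exact this (Finset.sdiff_subset hx)
    show ((X \ p.1) ∪ p.2).card = _
    rw [Finset.card_union_of_disjoint hd, Finset.card_sdiff_of_subset h3, h4, h6]
  have hinj : ∀ X : Finset V, Set.InjOn (φ X) (P X : Set (Finset V × Finset V)) := by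
    intro X p hp q hq hpq
    have h1 := hφ1 X p hp
    have h2 := hφ2 X p hp
    have h3 := hφ1 X q hq
    have h4 := hφ2 X q hq
    rw [hpq] at h1 h2
    exact Prod.ext (h1.symm.trans h3) (h2.symm.trans h4)
  let T : Finset V → Finset (Finset V) := fun X => (P X).image (φ X)
  have hTcard : ∀ X : Finset V, (T X).card = X.card.choose a * (n - X.card).choose b := by
    intro X
    show ((P X).image (φ X)).card = _
    rw [Finset.card_image_of_injOn (hinj X), Finset.card_product, Finset.card_powersetCard,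
      Finset.card_powersetCard, hcompl]
  have key : ∀ X ∈ G, ∀ X' ∈ G, ∀ Y ∈ T X, ∀ Y' ∈ T X', X ≠ X' → ¬ Y ⊆ Y' := by
    intro X hX X' hX' Y hY Y' hY' hne hsub
    rw [Finset.mem_image] at hY hY'
    obtain ⟨p, hp, rfl⟩ := hY
    obtain ⟨p', hp', rfl⟩ := hY'
    have h1 := hG X hX X' hX' hne
    have h2 : X \ X' ⊆ p.1 ∪ p'.2 := by
      intro x hx
      rw [mem_sdiff] at hx
      rw [mem_union]
      by_cases hxp : x ∈ p.1
      · exact Or.inl hxp
      · right
        have h3 : x ∈ φ X p := by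
          simp only [φ, mem_union, mem_sdiff]
          exact Or.inl ⟨hx.1, hxp⟩
        have h4 := hsub h3
        rw [← hφ2 X' p' hp', mem_sdiff]
        exact ⟨h4, hx.2⟩
    have h3 := (Finset.card_le_card h2).trans (Finset.card_union_le _ _)
    rw [Finset.mem_product, mem_powersetCard, mem_powersetCard] at hp hp'
    rw [hp.1.2, hp'.2.2] at h3
    omega
  have hdisj : (G : Set (Finset V)).PairwiseDisjoint T := by
    intro X hX X' hX' hne
    rw [Function.onFun, Finset.disjoint_left]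
    intro Y hY hY'
    exact key X hX X' hX' Y hY Y hY' hne (Finset.Subset.refl Y)
  let H : Finset (Finset V) := G.biUnion T
  have hsize : ∀ X ∈ G, ∀ Y ∈ T X, Y.card = X.card - a + b := by
    intro X hX Y hY
    rw [Finset.mem_image] at hY
    obtain ⟨p, hp, rfl⟩ := hY
    exact hcardφ X hX p hp
  have hanti : IsAntichain (· ⊆ ·) (H : Set (Finset V)) := by
    intro Y hY Y' hY' hYY' hsub
    rw [Finset.mem_coe, Finset.mem_biUnion] at hY hY'
    obtain ⟨X, hX, hYX⟩ := hY
    obtain ⟨X', hX', hYX'⟩ := hY'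
    by_cases hXX : X = X'
    · subst hXX
      exact hYY' (Finset.eq_of_subset_of_card_le hsub
        (by rw [hsize X hX Y hYX, hsize X hX Y' hYX']))
    · exact key X hX X' hX' Y hYX Y' hYX' hXX hsub
  have lym := Finset.lubell_yamamoto_meshalkin_inequality_sum_inv_choose (𝕜 := ℚ) hanti
  have e : ∑ Y ∈ H, ((Fintype.card V).choose Y.card : ℚ)⁻¹ =
      ∑ X ∈ G, (((X.card.choose a * (n - X.card).choose b : ℕ) : ℚ) /
      ((n.choose (X.card - a + b) : ℕ) : ℚ)) := by
    rw [Finset.sum_biUnion hdisj]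
    refine Finset.sum_congr rfl fun X hX => ?_
    have : ∀ Y ∈ T X, ((Fintype.card V).choose Y.card : ℚ)⁻¹ =
        (((n.choose (X.card - a + b) : ℕ) : ℚ))⁻¹ := by
      intro Y hY
      rw [hsize X hX Y hY, hn]
    rw [Finset.sum_congr rfl this, Finset.sum_const, nsmul_eq_mul, hTcard, div_eq_mul_inv]
  rw [← e]
  exact lym

/-- The weight of a set of size `k`. -/
def wt (n a b k : ℕ) : ℚ :=
  ((k.choose a * (n - k).choose b : ℕ) : ℚ) / ((n.choose (k - a + b) : ℕ) : ℚ)

lemma wt_pos {n a b k : ℕ} (ha : a ≤ k) (hk : k ≤ n) (hb : b ≤ n - k) : 0 < wt n a b k := by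
  unfold wt
  apply div_pos
  · exact_mod_cast Nat.mul_pos (Nat.choose_pos ha) (Nat.choose_pos hb)
  · exact_mod_cast Nat.choose_pos (by omega)

/-- The ratio of consecutive weights. -/
lemma wt_ratio {n a b k : ℕ} (ha : a ≤ k) (hk : k + 1 ≤ n) (hb : b ≤ n - (k + 1)) :
    wt n a b (k + 1) * (((k + 1 - a : ℕ) : ℚ) * ((n - k : ℕ) : ℚ) *
      ((n - (k - a + b) : ℕ) : ℚ)) =
    wt n a b k * (((k + 1 : ℕ) : ℚ) * ((n - k - b : ℕ) : ℚ) * ((k - a + b + 1 : ℕ) : ℚ)) := by
  have h1 : (k + 1).choose a * (k + 1 - a) = k.choose a * (k + 1) :=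
    (Nat.choose_mul_succ_eq k a).symm
  have h2 : (n - (k + 1)).choose b * (n - k) = (n - k).choose b * (n - k - b) := by
    have := Nat.choose_mul_succ_eq (n - (k + 1)) b
    have e : n - (k + 1) + 1 = n - k := by omega
    rwa [e] at this
  have h3 : n.choose (k - a + b + 1) * (k - a + b + 1) = n.choose (k - a + b) *
      (n - (k - a + b)) := Nat.choose_succ_right_eq n (k - a + b)
  have e2 : k + 1 - a + b = k - a + b + 1 := by omega
  have p1 : (0 : ℚ) < (n.choose (k - a + b) : ℕ) := by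
    exact_mod_cast Nat.choose_pos (by omega)
  have p2 : (0 : ℚ) < (n.choose (k - a + b + 1) : ℕ) := by
    exact_mod_cast Nat.choose_pos (by omega)
  unfold wt
  rw [e2]
  have h1' : (((k + 1).choose a : ℕ) : ℚ) * ((k + 1 - a : ℕ) : ℚ) =
    ((k.choose a : ℕ) : ℚ) * ((k + 1 : ℕ) : ℚ) := by exact_mod_cast h1
  have h2' : (((n - (k + 1)).choose b : ℕ) : ℚ) * ((n - k : ℕ) : ℚ) =
    (((n - k).choose b : ℕ) : ℚ) * ((n - k - b : ℕ) : ℚ) := by exact_mod_cast h2
  have h3' : ((n.choose (k - a + b + 1) : ℕ) : ℚ) * ((k - a + b + 1 : ℕ) : ℚ) =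
    ((n.choose (k - a + b) : ℕ) : ℚ) * ((n - (k - a + b) : ℕ) : ℚ) := by exact_mod_cast h3
  rw [Nat.cast_mul, Nat.cast_mul, div_mul_eq_mul_div, div_mul_eq_mul_div,
    div_eq_div_iff p2.ne' p1.ne']
  calc (((k + 1).choose a : ℕ) : ℚ) * (((n - (k + 1)).choose b : ℕ) : ℚ) *
      (((k + 1 - a : ℕ) : ℚ) * ((n - k : ℕ) : ℚ) * ((n - (k - a + b) : ℕ) : ℚ)) *
      ((n.choose (k - a + b) : ℕ) : ℚ)
      = ((((k + 1).choose a : ℕ) : ℚ) * ((k + 1 - a : ℕ) : ℚ)) *
        ((((n - (k + 1)).choose b : ℕ) : ℚ) * ((n - k : ℕ) : ℚ)) *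
        (((n.choose (k - a + b) : ℕ) : ℚ) * ((n - (k - a + b) : ℕ) : ℚ)) := by ring
    _ = _ := by rw [h1', h2', ← h3']; ring

/-- Comparison of consecutive weights: decreasing to the left of the middle. -/
lemma wt_step {n a b k : ℕ} (ha : a ≤ k) (hk : k + 1 ≤ n) (hb : b ≤ n - (k + 1))
    (h : (k + 1) * (n - k - b) * (k - a + b + 1) ≤ (k + 1 - a) * (n - k) * (n - (k - a + b))) :
    wt n a b (k + 1) ≤ wt n a b k := by
  have hr := wt_ratio ha hk hb
  have hpos : (0 : ℚ) < ((k + 1 - a : ℕ) : ℚ) * ((n - k : ℕ) : ℚ) *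
      ((n - (k - a + b) : ℕ) : ℚ) := by
    have : 0 < (k + 1 - a) * (n - k) * (n - (k - a + b)) :=
      Nat.mul_pos (Nat.mul_pos (by omega) (by omega)) (by omega)
    exact_mod_cast this
  have hw : 0 ≤ wt n a b k := (wt_pos ha (by omega) (by omega)).le
  have h' : ((k + 1 : ℕ) : ℚ) * ((n - k - b : ℕ) : ℚ) * ((k - a + b + 1 : ℕ) : ℚ) ≤
      ((k + 1 - a : ℕ) : ℚ) * ((n - k : ℕ) : ℚ) * ((n - (k - a + b) : ℕ) : ℚ) := by
    exact_mod_cast h
  have h2 := mul_le_mul_of_nonneg_left h' hw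
  rw [← hr] at h2
  exact le_of_mul_le_mul_right h2 hpos

/-- Comparison of consecutive weights: increasing to the right of the middle. -/
lemma wt_step' {n a b k : ℕ} (ha : a ≤ k) (hk : k + 1 ≤ n) (hb : b ≤ n - (k + 1))
    (h : (k + 1 - a) * (n - k) * (n - (k - a + b)) ≤ (k + 1) * (n - k - b) * (k - a + b + 1)) :
    wt n a b k ≤ wt n a b (k + 1) := by
  have hr := wt_ratio ha hk hb
  have hpos : (0 : ℚ) < ((k + 1 - a : ℕ) : ℚ) * ((n - k : ℕ) : ℚ) *
      ((n - (k - a + b) : ℕ) : ℚ) := by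
    have : 0 < (k + 1 - a) * (n - k) * (n - (k - a + b)) :=
      Nat.mul_pos (Nat.mul_pos (by omega) (by omega)) (by omega)
    exact_mod_cast this
  have hw : 0 ≤ wt n a b k := (wt_pos ha (by omega) (by omega)).le
  have h' : ((k + 1 - a : ℕ) : ℚ) * ((n - k : ℕ) : ℚ) * ((n - (k - a + b) : ℕ) : ℚ) ≤
      ((k + 1 : ℕ) : ℚ) * ((n - k - b : ℕ) : ℚ) * ((k - a + b + 1 : ℕ) : ℚ) := by
    exact_mod_cast h
  have h2 := mul_le_mul_of_nonneg_left h' hw
  rw [← hr] at h2
  exact le_of_mul_le_mul_right h2 hpos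

/-- The numerical inequality behind the comparison. -/
lemma num_step {x y a b : ℤ} (h0 : 0 ≤ b) (hab : a = b ∨ a = b + 1) (hx : 2 * b + 1 ≤ x)
    (hxy : x + 1 ≤ y + (a - b)) (hxa : x + 1 ≤ y ∨ a = b + 1) :
    (x + 1) * (y - b) * (x - a + b + 1) ≤ (x + 1 - a) * y * (y + a - b) := by
  rcases hab with rfl | rfl
  · -- x' = x + 1 ≤ y
    have hxy' : x + 1 ≤ y := by linarith
    obtain ⟨d, hd, rfl⟩ : ∃ d : ℤ, 0 ≤ d ∧ y = x + 1 + d := ⟨y - x - 1, by linarith, by ring⟩
    have h1 : (x + 1 - a) * (x + 1 + d) * (x + 1 + d + a - a) -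
        (x + 1) * (x + 1 + d - a) * (x - a + a + 1) =
        d * ((x + 1) * (x + 1 - 2 * a) + d * (x + 1 - a)) := by ring
    have h2 : 0 ≤ (x + 1) * (x + 1 - 2 * a) := mul_nonneg (by linarith) (by linarith)
    have h3 : 0 ≤ d * (x + 1 - a) := mul_nonneg hd (by linarith)
    have h4 := mul_nonneg hd (add_nonneg h2 h3)
    linarith
  · have hxy' : x ≤ y := by linarith
    obtain ⟨d, hd, rfl⟩ : ∃ d : ℤ, 0 ≤ d ∧ y = x + d := ⟨y - x, by linarith, by ring⟩
    have h1 : (x + 1 - (b + 1)) * (x + d) * (x + d + (b + 1) - b) -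
        (x + 1) * (x + d - b) * (x - (b + 1) + b + 1) =
        d * ((x * x - 2 * b * x - b) + d * (x - b)) := by ring
    have h2 : 0 ≤ x * x - 2 * b * x - b := by nlinarith
    have h3 : 0 ≤ d * (x - b) := mul_nonneg hd (by linarith)
    have h4 := mul_nonneg hd (add_nonneg h2 h3)
    linarith

lemma wt_left {n r a b : ℕ} (hr : 1 ≤ r) (hn : 4 * r ≤ n) (ha : a = r / 2)
    (hb : b = (r - 1) / 2) : ∀ d k : ℕ, 2 * r ≤ k → k + d = (n + 1) / 2 →
      wt n a b ((n + 1) / 2) ≤ wt n a b k := by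
  intro d
  induction d with
  | zero => intro k _ hk; rw [← hk, Nat.add_zero]
  | succ d ih =>
    intro k hk1 hk2
    refine (ih (k + 1) (by omega) (by omega)).trans ?_
    refine wt_step (by omega) (by omega) (by omega) ?_
    have hnum := num_step (x := (k : ℤ)) (y := ((n - k : ℕ) : ℤ)) (a := (a : ℤ)) (b := (b : ℤ))
      (by omega) (by omega) (by omega) (by omega) (by omega)
    have e1 : ((n - k - b : ℕ) : ℤ) = ((n - k : ℕ) : ℤ) - b := by omega
    have e2 : ((k - a + b + 1 : ℕ) : ℤ) = (k : ℤ) - a + b + 1 := by omega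
    have e3 : ((k + 1 - a : ℕ) : ℤ) = (k : ℤ) + 1 - a := by omega
    have e4 : ((n - (k - a + b) : ℕ) : ℤ) = ((n - k : ℕ) : ℤ) + a - b := by omega
    rw [← e1, ← e2, ← e3, ← e4] at hnum
    exact_mod_cast hnum

lemma wt_right {n r a b : ℕ} (hr : 1 ≤ r) (hn : 4 * r ≤ n) (ha : a = r / 2)
    (hb : b = (r - 1) / 2) : ∀ d k : ℕ, k = (n + 1) / 2 + d → k + 2 * r ≤ n →
      wt n a b ((n + 1) / 2) ≤ wt n a b k := by
  intro d
  induction d with
  | zero => intro k hk _; rw [hk]; simp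
  | succ d ih =>
    intro k' hk1 hk2
    obtain ⟨k, rfl⟩ : ∃ k, k' = k + 1 := ⟨k' - 1, by omega⟩
    refine (ih k (by omega) (by omega)).trans ?_
    refine wt_step' (by omega) (by omega) (by omega) ?_
    have hab : a = b ∨ a = b + 1 := by omega
    rcases hab with hab | hab
    · have hnum := num_step (x := ((n - k : ℕ) : ℤ) - 1) (y := (k : ℤ) + 1) (a := (a : ℤ))
        (b := (b : ℤ)) (by omega) (by omega) (by omega) (by omega) (by omega)
      have e1 : ((n - k - b : ℕ) : ℤ) = ((n - k : ℕ) : ℤ) - a := by omega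
      have e2 : ((k - a + b + 1 : ℕ) : ℤ) = (k : ℤ) + 1 := by omega
      have e3 : ((k + 1 - a : ℕ) : ℤ) = (k : ℤ) + 1 - a := by omega
      have e4 : ((n - (k - a + b) : ℕ) : ℤ) = ((n - k : ℕ) : ℤ) := by omega
      have goal : ((k : ℤ) + 1 - a) * ((n - k : ℕ) : ℤ) * ((n - k : ℕ) : ℤ) ≤
          ((k : ℤ) + 1) * (((n - k : ℕ) : ℤ) - a) * ((k : ℤ) + 1) := by
        have hab' : (a : ℤ) = b := by exact_mod_cast hab
        rw [← hab'] at hnum
        nlinarith [hnum]
      have : (((k + 1 - a) * (n - k) * (n - (k - a + b)) : ℕ) : ℤ) ≤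
          (((k + 1) * (n - k - b) * (k - a + b + 1) : ℕ) : ℤ) := by
        rw [Nat.cast_mul, Nat.cast_mul, Nat.cast_mul, Nat.cast_mul, e1, e2, e3, e4]
        push_cast
        exact goal
      exact_mod_cast this
    · have hnum := num_step (x := ((n - k : ℕ) : ℤ)) (y := (k : ℤ)) (a := (a : ℤ))
        (b := (b : ℤ)) (by omega) (by omega) (by omega) (by omega) (by omega)
      have e1 : ((n - k - b : ℕ) : ℤ) = ((n - k : ℕ) : ℤ) - b := by omega
      have e2 : ((k - a + b + 1 : ℕ) : ℤ) = (k : ℤ) := by omega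
      have e3 : ((k + 1 - a : ℕ) : ℤ) = (k : ℤ) - b := by omega
      have e4 : ((n - (k - a + b) : ℕ) : ℤ) = ((n - k : ℕ) : ℤ) + 1 := by omega
      have hab' : (a : ℤ) = b + 1 := by exact_mod_cast hab
      rw [hab'] at hnum
      have : (((k + 1 - a) * (n - k) * (n - (k - a + b)) : ℕ) : ℤ) ≤
          (((k + 1) * (n - k - b) * (k - a + b + 1) : ℕ) : ℤ) := by
        rw [Nat.cast_mul, Nat.cast_mul, Nat.cast_mul, Nat.cast_mul, e1, e2, e3, e4]
        push_cast
        nlinarith [hnum]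
      exact_mod_cast this

/-- The weight is smallest in the middle. -/
lemma wt_middle {n r k : ℕ} (hr : 1 ≤ r) (hn : 4 * r ≤ n) (hk1 : 2 * r ≤ k)
    (hk2 : k + 2 * r ≤ n) :
    wt n (r / 2) ((r - 1) / 2) ((n + 1) / 2) ≤ wt n (r / 2) ((r - 1) / 2) k := by
  rcases le_total k ((n + 1) / 2) with h | h
  · exact wt_left hr hn rfl rfl ((n + 1) / 2 - k) k hk1 (by omega)
  · exact wt_right hr hn rfl rfl (k - (n + 1) / 2) k (by omega) hk2

/-- The family together with the complements. -/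
lemma closed_family {V : Type u} [Fintype V] [DecidableEq V] {r : ℕ} (hr : 1 ≤ r)
    {F : Finset (Finset V)} (hF : QI r F) (hF2 : 1 < F.card) :
    (F ∪ F.image compl).card = 2 * F.card ∧
    (∀ X ∈ F ∪ F.image compl, ∀ Y ∈ F ∪ F.image compl, X ≠ Y → r ≤ (X \ Y).card) ∧
    (∀ X ∈ F ∪ F.image compl, 2 * r ≤ X.card ∧ X.card + 2 * r ≤ Fintype.card V) ∧
    (∀ X ∈ F ∪ F.image compl, Xᶜ ∈ F ∪ F.image compl) := by
  classical
  have hcard : ∀ A ∈ F, 2 * r ≤ A.card ∧ 2 * r ≤ Aᶜ.card := by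
    intro A hA
    obtain ⟨B, hB, hAB⟩ := Finset.exists_mem_ne hF2 A
    obtain ⟨h1, h2, h3, h4⟩ := hF A hA B hB hAB.symm
    have e1 : (A ∩ B).card + (A ∩ Bᶜ).card = A.card := by
      rw [← Finset.sdiff_eq_inter_compl]
      exact Finset.card_inter_add_card_sdiff A B
    have e2 : (Aᶜ ∩ B).card + (Aᶜ ∩ Bᶜ).card = Aᶜ.card := by
      rw [← Finset.sdiff_eq_inter_compl]
      exact Finset.card_inter_add_card_sdiff _ B
    omega
  have hdis : Disjoint F (F.image compl) := by
    rw [Finset.disjoint_left]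
    intro A hA hA'
    rw [Finset.mem_image] at hA'
    obtain ⟨B, hB, hBA⟩ := hA'
    by_cases hAB : A = B
    · subst hAB
      have := (hcard A hA)
      have h0 : A ∩ Aᶜ = ∅ := Finset.inter_compl A
      rw [hBA, Finset.inter_self] at h0
      rw [h0] at this
      simp at this
      omega
    · have h1 := (hF A hA B hB hAB).1
      have h0 : Bᶜ ∩ B = ∅ := by rw [Finset.inter_comm, Finset.inter_compl]
      rw [hBA] at h0
      rw [h0] at h1
      simp at h1
      omega
  refine ⟨?_, ?_, ?_, ?_⟩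
  · rw [Finset.card_union_of_disjoint hdis, Finset.card_image_of_injective _ compl_injective]
    ring
  · intro X hX Y hY hXY
    rw [Finset.sdiff_eq_inter_compl]
    rw [Finset.mem_union] at hX hY
    rcases hX with hX | hX
    · rcases hY with hY | hY
      · exact (hF X hX Y hY hXY).2.1
      · rw [Finset.mem_image] at hY
        obtain ⟨B, hB, rfl⟩ := hY
        rw [compl_compl]
        by_cases hXB : X = B
        · subst hXB; rw [Finset.inter_self]; have := (hcard X hX).1; omega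
        · exact (hF X hX B hB hXB).1
    · rw [Finset.mem_image] at hX
      obtain ⟨A, hA, rfl⟩ := hX
      rcases hY with hY | hY
      · by_cases hAY : A = Y
        · subst hAY; rw [Finset.inter_self]; have := (hcard A hA).2; omega
        · exact (hF A hA Y hY hAY).2.2.2
      · rw [Finset.mem_image] at hY
        obtain ⟨B, hB, rfl⟩ := hY
        rw [compl_compl]
        have hAB : A ≠ B := fun hh => hXY (by rw [hh])
        exact (hF A hA B hB hAB).2.2.1
  · intro X hX
    rw [Finset.mem_union] at hX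
    rcases hX with hX | hX
    · have h1 := hcard X hX
      have h2 := Finset.card_add_card_compl X
      omega
    · rw [Finset.mem_image] at hX
      obtain ⟨A, hA, rfl⟩ := hX
      have h1 := hcard A hA
      have h2 := Finset.card_add_card_compl A
      omega
  · intro X hX
    rw [Finset.mem_union] at hX ⊢
    rcases hX with hX | hX
    · exact Or.inr (Finset.mem_image_of_mem _ hX)
    · rw [Finset.mem_image] at hX
      obtain ⟨A, hA, rfl⟩ := hX
      rw [compl_compl]
      exact Or.inl hA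

/-- **The two-sided upper bound.** -/
lemma upper_bound2 {r n : ℕ} (hr : 1 ≤ r) (hn : 4 * r ≤ n) :
    2 * (((n + 1) / 2).choose (r / 2) * (n / 2).choose ((r - 1) / 2)) * maxQI r n ≤
      n.choose ((n + 1) / 2 - r / 2 + (r - 1) / 2) := by
  classical
  obtain ⟨F, hF, e⟩ := exists_maxQI r n
  have h2 := two_le_maxQI hn hr
  have hF2 : 1 < F.card := by omega
  obtain ⟨g1, g2, g3, -⟩ := closed_family hr hF hF2
  have hlym := lym_two_sided (V := Fin n) (n := n) (a := r / 2) (b := (r - 1) / 2) (by simp)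
    (F ∪ F.image compl) (by
      intro X hX Y hY hXY
      have := g2 X hX Y hY hXY
      omega)
  have hmid : ∀ X ∈ F ∪ F.image compl, wt n (r / 2) ((r - 1) / 2) ((n + 1) / 2) ≤
      (((X.card.choose (r / 2) * (n - X.card).choose ((r - 1) / 2) : ℕ) : ℚ) /
      ((n.choose (X.card - r / 2 + (r - 1) / 2) : ℕ) : ℚ)) := by
    intro X hX
    have h3 := g3 X hX
    rw [Fintype.card_fin] at h3
    exact wt_middle hr hn h3.1 h3.2
  have h3 := (Finset.sum_le_sum hmid).trans hlym
  rw [Finset.sum_const, nsmul_eq_mul, g1, e] at h3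
  have e3 : n - (n + 1) / 2 = n / 2 := by omega
  unfold wt at h3
  rw [e3] at h3
  have hpos : (0 : ℚ) < (n.choose ((n + 1) / 2 - r / 2 + (r - 1) / 2) : ℕ) := by
    exact_mod_cast Nat.choose_pos (by omega)
  rw [mul_div_assoc', div_le_one hpos] at h3
  have h4 : 2 * maxQI r n * (((n + 1) / 2).choose (r / 2) * (n / 2).choose ((r - 1) / 2)) ≤
      n.choose ((n + 1) / 2 - r / 2 + (r - 1) / 2) := by exact_mod_cast h3
  calc 2 * (((n + 1) / 2).choose (r / 2) * (n / 2).choose ((r - 1) / 2)) * maxQI r n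
      = 2 * maxQI r n * (((n + 1) / 2).choose (r / 2) * (n / 2).choose ((r - 1) / 2)) := by ring
    _ ≤ _ := h4

lemma pow_le_choose_mul (n m a : ℕ) (h : n ≤ 3 * (m - a + 1)) (ha : a ≤ m) :
    n ^ a ≤ 3 ^ a * (m.choose a * a.factorial) := by
  have h1 : (m + 1 - a) ^ a ≤ m.descFactorial a := Nat.pow_sub_le_descFactorial m a
  have h2 : m.descFactorial a = a.factorial * m.choose a :=
    Nat.descFactorial_eq_factorial_mul_choose m a
  calc n ^ a ≤ (3 * (m - a + 1)) ^ a := Nat.pow_le_pow_left h a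
    _ = 3 ^ a * (m + 1 - a) ^ a := by
        rw [mul_pow]
        have : m - a + 1 = m + 1 - a := by omega
        rw [this]
    _ ≤ 3 ^ a * m.descFactorial a := Nat.mul_le_mul_left _ h1
    _ = _ := by rw [h2]; ring

/-- The upper bound in the form of the order of magnitude. -/
lemma upper_order2 {r n : ℕ} (hr : 1 ≤ r) (hn : 4 * r ≤ n) :
    2 * n ^ (r - 1) * maxQI r n ≤
      3 ^ (r - 1) * ((r / 2).factorial * ((r - 1) / 2).factorial) * n.choose (n / 2) := by
  have h := upper_bound2 hr hn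
  have h1 := pow_le_choose_mul n ((n + 1) / 2) (r / 2) (by omega) (by omega)
  have h2 := pow_le_choose_mul n (n / 2) ((r - 1) / 2) (by omega) (by omega)
  have e : r - 1 = r / 2 + (r - 1) / 2 := by omega
  have h3 : n.choose ((n + 1) / 2 - r / 2 + (r - 1) / 2) ≤ n.choose (n / 2) :=
    Nat.choose_le_middle _ _
  calc 2 * n ^ (r - 1) * maxQI r n
      = 2 * (n ^ (r / 2) * n ^ ((r - 1) / 2)) * maxQI r n := by
        rw [← pow_add, ← e]
    _ ≤ 2 * ((3 ^ (r / 2) * (((n + 1) / 2).choose (r / 2) * (r / 2).factorial)) *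
        (3 ^ ((r - 1) / 2) * ((n / 2).choose ((r - 1) / 2) * ((r - 1) / 2).factorial))) *
        maxQI r n :=
        Nat.mul_le_mul_right _ (Nat.mul_le_mul_left _ (Nat.mul_le_mul h1 h2))
    _ = (3 ^ (r / 2) * 3 ^ ((r - 1) / 2)) * ((r / 2).factorial * ((r - 1) / 2).factorial) *
        (2 * (((n + 1) / 2).choose (r / 2) * (n / 2).choose ((r - 1) / 2)) * maxQI r n) := by
        ring
    _ = 3 ^ (r - 1) * ((r / 2).factorial * ((r - 1) / 2).factorial) *
        (2 * (((n + 1) / 2).choose (r / 2) * (n / 2).choose ((r - 1) / 2)) * maxQI r n) := by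
        rw [← pow_add, ← e]
    _ ≤ 3 ^ (r - 1) * ((r / 2).factorial * ((r - 1) / 2).factorial) *
        n.choose (n / 2) := Nat.mul_le_mul_left _ (h.trans h3)

end Pool.Agent.Lib_helper42.QI
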