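import Mathlib
import Pool.Agent.Lib_helper42.QI.Upper2

/-!
# Equality for `r = 2` and Steiner systems `S(k-1, k, 2k)`
-/

set_option autoImplicit false

namespace Pool.Agent.Lib_helper42.QI

open Finset

universe u

section Steiner

variable {V : Type u} [Fintype V] [DecidableEq V]

/-- A Steiner system `S(k-1, k, |V|)`. -/
def IsSteiner (k : ℕ) (S : Finset (Finset V)) : Prop :=
  (∀ X ∈ S, X.card = k) ∧ ∀ T : Finset V, T.card = k - 1 → ∃! X, X ∈ S ∧ T ⊆ X

lemma count_inter (Y X : Finset V) (m j : ℕ) (hj : j ≤ m) :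
    ((powersetCard m Y).filter (fun T => (T ∩ X).card = j)).card =
      (Y ∩ X).card.choose j * (Y \ X).card.choose (m - j) := by
  rw [← Finset.card_powersetCard, ← Finset.card_powersetCard, ← Finset.card_product]
  symm
  refine Finset.card_nbij' (fun p => p.1 ∪ p.2) (fun T => (T ∩ X, T \ X)) ?_ ?_ ?_ ?_
  · intro p hp
    rw [Finset.mem_coe, Finset.mem_product, mem_powersetCard, mem_powersetCard] at hp
    obtain ⟨⟨h1, h2⟩, ⟨h3, h4⟩⟩ := hp
    have hd : Disjoint p.1 p.2 := by
      rw [Finset.disjoint_left]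
      intro x hx hx2
      have h5 := h1 hx
      have h6 := h3 hx2
      rw [mem_inter] at h5
      rw [mem_sdiff] at h6
      exact h6.2 h5.2
    have hcap : (p.1 ∪ p.2) ∩ X = p.1 := by
      ext x
      rw [mem_inter, mem_union]
      constructor
      · rintro ⟨h | h, hx⟩
        · exact h
        · have := h3 h
          rw [mem_sdiff] at this
          exact absurd hx this.2
      · intro h
        have := h1 h
        rw [mem_inter] at this
        exact ⟨Or.inl h, this.2⟩
    rw [Finset.mem_coe, mem_filter, mem_powersetCard]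
    refine ⟨⟨?_, ?_⟩, ?_⟩
    · exact Finset.union_subset (h1.trans Finset.inter_subset_left)
        (h3.trans Finset.sdiff_subset)
    · rw [Finset.card_union_of_disjoint hd, h2, h4]; omega
    · show ((p.1 ∪ p.2) ∩ X).card = j
      rw [hcap, h2]
  · intro T hT
    rw [Finset.mem_coe, mem_filter, mem_powersetCard] at hT
    obtain ⟨⟨h1, h2⟩, h3⟩ := hT
    rw [Finset.mem_coe, Finset.mem_product, mem_powersetCard, mem_powersetCard]
    refine ⟨⟨Finset.inter_subset_inter_right h1, h3⟩, ⟨Finset.sdiff_subset_sdiff h1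
      (Finset.Subset.refl X), ?_⟩⟩
    have := Finset.card_inter_add_card_sdiff T X
    show (T \ X).card = m - j
    omega
  · intro p hp
    rw [Finset.mem_coe, Finset.mem_product, mem_powersetCard, mem_powersetCard] at hp
    obtain ⟨⟨h1, h2⟩, ⟨h3, h4⟩⟩ := hp
    have hcap : (p.1 ∪ p.2) ∩ X = p.1 := by
      ext x
      rw [mem_inter, mem_union]
      constructor
      · rintro ⟨h | h, hx⟩
        · exact h
        · have := h3 h
          rw [mem_sdiff] at this
          exact absurd hx this.2
      · intro h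
        have := h1 h
        rw [mem_inter] at this
        exact ⟨Or.inl h, this.2⟩
    have hsd : (p.1 ∪ p.2) \ X = p.2 := by
      ext x
      rw [mem_sdiff, mem_union]
      constructor
      · rintro ⟨h | h, hx⟩
        · have := h1 h
          rw [mem_inter] at this
          exact absurd this.2 hx
        · exact h
      · intro h
        have := h3 h
        rw [mem_sdiff] at this
        exact ⟨Or.inr h, this.2⟩
    exact Prod.ext hcap hsd
  · intro T _
    ext x
    simp only [mem_union, mem_inter, mem_sdiff]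
    tauto

variable {k : ℕ} {S : Finset (Finset V)}

lemma IsSteiner.two_le (hS : IsSteiner k S) {X Y : Finset V} (hX : X ∈ S) (hY : Y ∈ S)
    (hXY : X ≠ Y) : 2 ≤ (X \ Y).card := by
  by_contra hlt
  have h1 := Finset.card_inter_add_card_sdiff X Y
  rw [hS.1 X hX] at h1
  obtain ⟨T, hT, hTc⟩ := Finset.exists_subset_card_eq (s := X ∩ Y) (n := k - 1) (by omega)
  obtain ⟨Z, -, hZ⟩ := hS.2 T hTc
  have e1 := hZ X ⟨hX, hT.trans Finset.inter_subset_left⟩
  have e2 := hZ Y ⟨hY, hT.trans Finset.inter_subset_right⟩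
  exact hXY (e1.trans e2.symm)

/-- Double counting of the `(k-1)`-sets through the blocks. -/
lemma IsSteiner.double_count (hS : IsSteiner k S) (p : Finset V → Prop) [DecidablePred p] :
    ∑ Y ∈ S, ((powersetCard (k - 1) Y).filter p).card =
      ((powersetCard (k - 1) (univ : Finset V)).filter p).card := by
  rw [← Finset.card_biUnion]
  · congr 1
    ext T
    rw [Finset.mem_biUnion]
    constructor
    · rintro ⟨Y, _, hT⟩
      rw [mem_filter, mem_powersetCard] at hT ⊢
      exact ⟨⟨Finset.subset_univ _, hT.1.2⟩, hT.2⟩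
    · intro hT
      rw [mem_filter, mem_powersetCard] at hT
      obtain ⟨Y, hY, -⟩ := hS.2 T hT.1.2
      refine ⟨Y, hY.1, ?_⟩
      rw [mem_filter, mem_powersetCard]
      exact ⟨⟨hY.2, hT.1.2⟩, hT.2⟩
  · intro Y hY Y' hY' hne
    rw [Function.onFun, Finset.disjoint_left]
    intro T hT hT'
    rw [mem_filter, mem_powersetCard] at hT hT'
    obtain ⟨Z, -, hZ⟩ := hS.2 T hT.1.2
    exact hne ((hZ Y ⟨hY, hT.1.1⟩).trans (hZ Y' ⟨hY', hT'.1.1⟩).symm)

lemma IsSteiner.card_mul (hV : Fintype.card V = 2 * k) (hk : 1 ≤ k) (hS : IsSteiner k S) :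
    S.card * k = (2 * k).choose (k - 1) := by
  have h := hS.double_count (fun _ => True)
  simp only [Finset.filter_true, Finset.card_powersetCard, Finset.card_univ, hV] at h
  rw [← h]
  have : ∀ Y ∈ S, Y.card.choose (k - 1) = k := by
    intro Y hY
    rw [hS.1 Y hY, ← Nat.choose_symm_of_eq_add (n := k) (a := 1) (b := k - 1) (by omega)]
    exact Nat.choose_one_right k
  rw [Finset.sum_congr rfl this, Finset.sum_const, smul_eq_mul]

/-- The recurrence for the intersection numbers with a fixed block. -/
lemma IsSteiner.recurrence (hV : Fintype.card V = 2 * k) (hS : IsSteiner k S)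
    {X : Finset V} (hX : X ∈ S) {j : ℕ} (hj : j + 1 ≤ k) :
    (k - j) * (S.filter (fun Y => (Y ∩ X).card = j)).card +
      (j + 1) * (S.filter (fun Y => (Y ∩ X).card = j + 1)).card = k.choose j * k.choose (j + 1) := by
  have h := hS.double_count (fun T => (T ∩ X).card = j)
  rw [count_inter _ _ _ _ (by omega : j ≤ k - 1), Finset.univ_inter, hS.1 X hX] at h
  have hXc : (univ \ X).card = k := by
    rw [Finset.card_sdiff_of_subset (Finset.subset_univ X), Finset.card_univ, hV, hS.1 X hX]
    omega
  rw [hXc] at h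
  have e1 : k.choose (k - 1 - j) = k.choose (j + 1) :=
    Nat.choose_symm_of_eq_add (by omega)
  rw [e1] at h
  rw [← h]
  have hterm : ∀ Y ∈ S, ((powersetCard (k - 1) Y).filter (fun T => (T ∩ X).card = j)).card =
      (if (Y ∩ X).card = j then (k - j) else 0) +
        (if (Y ∩ X).card = j + 1 then (j + 1) else 0) := by
    intro Y hY
    rw [count_inter _ _ _ _ (by omega : j ≤ k - 1)]
    have h1 := Finset.card_inter_add_card_sdiff Y X
    rw [hS.1 Y hY] at h1
    by_cases c1 : (Y ∩ X).card = j
    · rw [if_pos c1, if_neg (by omega), c1, Nat.choose_self, one_mul, add_zero]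
      have e2 : (Y \ X).card = k - j := by omega
      rw [e2]
      have e3 : (k - j).choose (k - 1 - j) = (k - j).choose 1 :=
        Nat.choose_symm_of_eq_add (by omega)
      rw [e3, Nat.choose_one_right]
    · rw [if_neg c1, zero_add]
      by_cases c2 : (Y ∩ X).card = j + 1
      · rw [if_pos c2, c2]
        have e2 : (Y \ X).card = k - 1 - j := by omega
        rw [e2, Nat.choose_self, mul_one, Nat.choose_succ_self_right]
      · rw [if_neg c2]
        rcases lt_or_gt_of_ne c1 with c3 | c3
        · rw [Nat.choose_eq_zero_of_lt c3, zero_mul]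
        · have : (Y \ X).card < k - 1 - j := by omega
          rw [Nat.choose_eq_zero_of_lt this, mul_zero]
  rw [Finset.sum_congr rfl hterm, Finset.sum_add_distrib, ← Finset.sum_filter,
    ← Finset.sum_filter, Finset.sum_const, Finset.sum_const, smul_eq_mul, smul_eq_mul]
  ring

/-- The intersection numbers. -/
lemma IsSteiner.numbers (hV : Fintype.card V = 2 * k) (hS : IsSteiner k S)
    {X : Finset V} (hX : X ∈ S) : ∀ d j : ℕ, j + d = k →
    ((k : ℤ) + 1) * ((S.filter (fun Y => (Y ∩ X).card = j)).card : ℤ) =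
      (k.choose j : ℤ) ^ 2 + (-1) ^ d * k * (k.choose j : ℤ) := by
  intro d
  induction d with
  | zero =>
    intro j hj
    have hjk : j = k := by omega
    subst hjk
    have : S.filter (fun Y => (Y ∩ X).card = j) = {X} := by
      ext Y
      rw [mem_filter, mem_singleton]
      constructor
      · rintro ⟨hY, hc⟩
        have h1 : Y ∩ X = X := Finset.eq_of_subset_of_card_le Finset.inter_subset_right
          (by rw [hc, hS.1 X hX])
        have h2 : Y ∩ X = Y := Finset.eq_of_subset_of_card_le Finset.inter_subset_left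
          (by rw [hc, hS.1 Y hY])
        exact h2.symm.trans h1
      · rintro rfl
        exact ⟨hX, by rw [Finset.inter_self, hS.1 Y hX]⟩
    rw [this, Finset.card_singleton, Nat.choose_self]
    norm_num
    ring
  | succ d ih =>
    intro j hj
    have hrec := hS.recurrence hV hX (j := j) (by omega)
    have ih' := ih (j + 1) (by omega)
    have hkj : (0 : ℤ) < (k : ℤ) - j := by omega
    have e1 : ((k.choose (j + 1) : ℕ) : ℤ) * ((j : ℤ) + 1) = (k.choose j : ℤ) * ((k : ℤ) - j) := by
      have := Nat.choose_succ_right_eq k j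
      have h2 : ((k - j : ℕ) : ℤ) = (k : ℤ) - j := by omega
      rw [← h2]
      exact_mod_cast this
    have hrec' : ((k : ℤ) - j) * ((S.filter (fun Y => (Y ∩ X).card = j)).card : ℤ) +
      ((j : ℤ) + 1) * ((S.filter (fun Y => (Y ∩ X).card = j + 1)).card : ℤ) =
        (k.choose j : ℤ) * (k.choose (j + 1) : ℤ) := by
      have h2 : ((k - j : ℕ) : ℤ) = (k : ℤ) - j := by omega
      rw [← h2]
      exact_mod_cast hrec
    set N := ((S.filter (fun Y => (Y ∩ X).card = j)).card : ℤ)
    set N' := ((S.filter (fun Y => (Y ∩ X).card = j + 1)).card : ℤ)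
    set c := (k.choose j : ℤ)
    set c' := (k.choose (j + 1) : ℤ)
    apply mul_left_cancel₀ hkj.ne'
    have e2 : ((k : ℤ) - j) * (((k : ℤ) + 1) * N) = ((k : ℤ) + 1) * (c * c') -
        ((j : ℤ) + 1) * (((k : ℤ) + 1) * N') := by
      rw [← hrec']; ring
    rw [e2, ih']
    have e3 : ((j : ℤ) + 1) * (c' ^ 2 + (-1) ^ d * k * c') =
        (c' * ((j : ℤ) + 1)) * c' + (-1) ^ d * k * (c' * ((j : ℤ) + 1)) := by ring
    rw [e3, e1, pow_succ]
    have e4 : c * c' * (j : ℤ) = c * (c * ((k : ℤ) - j)) - c * c' := by rw [← e1]; ring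
    linear_combination e4

lemma IsSteiner.compl_mem (hV : Fintype.card V = 2 * k) (hk : 2 ≤ k) (hS : IsSteiner k S)
    {X : Finset V} (hX : X ∈ S) : Xᶜ ∈ S := by
  have h := hS.numbers hV hX k 0 (by omega)
  rw [Nat.choose_zero_right] at h
  have hpos : 0 < (S.filter (fun Y => (Y ∩ X).card = 0)).card := by
    rcases Nat.even_or_odd k with he | ho
    · rw [he.neg_one_pow] at h
      by_contra h0
      have h1 : (S.filter (fun Y => (Y ∩ X).card = 0)).card = 0 := by omega
      rw [h1] at h
      push_cast at h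
      omega
    · rw [ho.neg_one_pow] at h
      exfalso
      have h2 : (0 : ℤ) ≤ ((S.filter (fun Y => (Y ∩ X).card = 0)).card : ℤ) := by positivity
      have h3 : (0 : ℤ) ≤ ((k : ℤ) + 1) * ((S.filter (fun Y => (Y ∩ X).card = 0)).card : ℤ) := by
        positivity
      rw [h] at h3
      push_cast at h3
      omega
  obtain ⟨Y, hY⟩ := Finset.card_pos.mp hpos
  rw [mem_filter, Finset.card_eq_zero] at hY
  have h4 : Y = Xᶜ := by
    apply Finset.eq_of_subset_of_card_le
    · intro y hy
      rw [mem_compl]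
      intro hyX
      have : y ∈ Y ∩ X := mem_inter.mpr ⟨hy, hyX⟩
      rw [hY.2] at this
      simp at this
    · rw [Finset.card_compl, hV, hS.1 X hX, hS.1 Y hY.1]; omega
  rw [← h4]
  exact hY.1

/-- A Steiner system `S(k-1,k,2k)` gives a large family. -/
lemma IsSteiner.lower (hV : Fintype.card V = 2 * k) (hk : 2 ≤ k) (hS : IsSteiner k S) :
    (2 * k).choose (k - 1) ≤ 2 * k * maxQI 2 (2 * k) := by
  classical
  have hne : Nonempty V := by
    rw [← Fintype.card_pos_iff]; omega
  obtain ⟨x0⟩ := hne
  let F := S.filter (fun X => x0 ∈ X)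
  have hQ : QI 2 F := by
    intro X hX Y hY hXY
    rw [mem_filter] at hX hY
    have hXc := hS.compl_mem hV hk hX.1
    have hYc := hS.compl_mem hV hk hY.1
    have hXcY : Xᶜ ≠ Y := by
      intro hh
      have := hY.2
      rw [← hh, mem_compl] at this
      exact this hX.2
    have hXYc : X ≠ Yᶜ := by
      intro hh
      have := hX.2
      rw [hh, mem_compl] at this
      exact this hY.2
    refine ⟨?_, ?_, ?_, ?_⟩
    · have := hS.two_le hX.1 hYc hXYc
      rwa [Finset.sdiff_eq_inter_compl, compl_compl] at this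
    · have := hS.two_le hX.1 hY.1 hXY
      rwa [Finset.sdiff_eq_inter_compl] at this
    · have := hS.two_le hY.1 hX.1 hXY.symm
      rwa [Finset.sdiff_eq_inter_compl, Finset.inter_comm] at this
    · have := hS.two_le hXc hY.1 hXcY
      rwa [Finset.sdiff_eq_inter_compl] at this
  have hF := le_maxQI hV hQ
  have hcard : S.card = 2 * F.card := by
    have h1 : S.card = F.card + (S.filter (fun X => ¬ x0 ∈ X)).card :=
      (Finset.card_filter_add_card_filter_not _).symm
    have h2 : (S.filter (fun X => ¬ x0 ∈ X)).card = F.card := by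
      refine Finset.card_nbij' compl compl ?_ ?_ ?_ ?_
      · intro X hX
        rw [Finset.mem_coe, mem_filter] at hX ⊢
        exact ⟨hS.compl_mem hV hk hX.1, mem_compl.mpr hX.2⟩
      · intro X hX
        rw [Finset.mem_coe, mem_filter] at hX ⊢
        refine ⟨hS.compl_mem hV hk hX.1, ?_⟩
        rw [mem_compl, not_not]
        exact hX.2
      · intro X _; exact compl_compl X
      · intro X _; exact compl_compl X
    omega
  have h3 := hS.card_mul hV (by omega)
  rw [hcard] at h3
  calc (2 * k).choose (k - 1) = 2 * F.card * k := h3.symm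
    _ ≤ 2 * maxQI 2 (2 * k) * k := Nat.mul_le_mul_right _ (Nat.mul_le_mul_left _ hF)
    _ = _ := by ring

end Steiner

lemma choose_lt_middle {k j : ℕ} (hj : j < k) : (2 * k + 1).choose j < (2 * k + 1).choose k := by
  have h1 : (2 * k + 1).choose (j + 1) * (j + 1) = (2 * k + 1).choose j * (2 * k + 1 - j) :=
    Nat.choose_succ_right_eq _ _
  have h2 : 0 < (2 * k + 1).choose j := Nat.choose_pos (by omega)
  have h3 : (2 * k + 1).choose (j + 1) ≤ (2 * k + 1).choose k := by
    have := Nat.choose_le_middle (j + 1) (2 * k + 1)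
    have e : (2 * k + 1) / 2 = k := by omega
    rwa [e] at this
  have h4 : (2 * k + 1).choose j < (2 * k + 1).choose (j + 1) := by
    by_contra hcon
    push Not at hcon
    have h5 : (2 * k + 1).choose (j + 1) * (j + 1) ≤ (2 * k + 1).choose j * (j + 1) :=
      Nat.mul_le_mul_right _ hcon
    have h6 : (2 * k + 1).choose j * (j + 1) < (2 * k + 1).choose j * (2 * k + 1 - j) :=
      Nat.mul_lt_mul_of_pos_left (by omega) h2
    omega
  omega

lemma wt_lt {k j : ℕ} (hj : j < k) (hj1 : 1 ≤ j) : wt (2 * k) 1 0 k < wt (2 * k) 1 0 j := by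
  unfold wt
  simp only [Nat.choose_one_right, Nat.choose_zero_right, mul_one, Nat.add_zero]
  have p1 : (0 : ℚ) < ((2 * k).choose (k - 1) : ℕ) := by
    exact_mod_cast Nat.choose_pos (by omega)
  have p2 : (0 : ℚ) < ((2 * k).choose (j - 1) : ℕ) := by
    exact_mod_cast Nat.choose_pos (by omega)
  rw [div_lt_div_iff₀ p1 p2]
  have h1 : (2 * k + 1) * (2 * k).choose (k - 1) = (2 * k + 1).choose k * k := by
    have := Nat.add_one_mul_choose_eq (2 * k) (k - 1)
    have e : k - 1 + 1 = k := by omega
    rwa [e] at this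
  have h2 : (2 * k + 1) * (2 * k).choose (j - 1) = (2 * k + 1).choose j * j := by
    have := Nat.add_one_mul_choose_eq (2 * k) (j - 1)
    have e : j - 1 + 1 = j := by omega
    rwa [e] at this
  have h3 := choose_lt_middle hj
  have h4 : (2 * k + 1) * (k * (2 * k).choose (j - 1)) <
      (2 * k + 1) * (j * (2 * k).choose (k - 1)) := by
    calc (2 * k + 1) * (k * (2 * k).choose (j - 1))
        = k * ((2 * k + 1) * (2 * k).choose (j - 1)) := by ring
      _ = (k * j) * (2 * k + 1).choose j := by rw [h2]; ring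
      _ < (k * j) * (2 * k + 1).choose k :=
          Nat.mul_lt_mul_of_pos_left h3 (Nat.mul_pos (by omega) (by omega))
      _ = j * ((2 * k + 1) * (2 * k).choose (k - 1)) := by rw [h1]; ring
      _ = _ := by ring
  have h5 := Nat.lt_of_mul_lt_mul_left h4
  exact_mod_cast h5

/-- Upper bound for `r = 2` and even `n`. -/
lemma upper_two_even {k : ℕ} (hk : 4 ≤ k) :
    2 * k * maxQI 2 (2 * k) ≤ (2 * k).choose (k - 1) := by
  have h := upper_bound2 (r := 2) (n := 2 * k) (by norm_num) (by omega)
  have e1 : (2 * k + 1) / 2 = k := by omega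
  have e2 : 2 * k / 2 = k := by omega
  rw [e1, e2] at h
  norm_num at h
  exact h

/-- Equality gives a Steiner system. -/
lemma steiner_of_eq {k : ℕ} (hk : 4 ≤ k)
    (h : 2 * k * maxQI 2 (2 * k) = (2 * k).choose (k - 1)) :
    ∃ S : Finset (Finset (Fin (2 * k))), IsSteiner k S := by
  classical
  obtain ⟨F, hF, e⟩ := exists_maxQI 2 (2 * k)
  have h2 := two_le_maxQI (r := 2) (n := 2 * k) (by omega) (by norm_num)
  have hF2 : 1 < F.card := by omega
  obtain ⟨g1, g2, g3, g4⟩ := closed_family (by norm_num) hF hF2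
  set G := F ∪ F.image compl with hG
  have hlym := lym_two_sided (V := Fin (2 * k)) (n := 2 * k) (a := 1) (b := 0) (by simp) G
    (fun X hX Y hY hXY => g2 X hX Y hY hXY)
  have hmid : ∀ X ∈ G, wt (2 * k) 1 0 k ≤ wt (2 * k) 1 0 X.card := by
    intro X hX
    have h3 := g3 X hX
    rw [Fintype.card_fin] at h3
    have := wt_middle (r := 2) (n := 2 * k) (k := X.card) (by norm_num) (by omega) h3.1 h3.2
    have e1 : (2 * k + 1) / 2 = k := by omega
    rw [e1] at this
    exact this
  have htot : (G.card : ℚ) * wt (2 * k) 1 0 k = 1 := by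
    rw [g1, e]
    unfold wt
    simp only [Nat.choose_one_right, Nat.choose_zero_right, mul_one, Nat.add_zero]
    have p1 : (0 : ℚ) < ((2 * k).choose (k - 1) : ℕ) := by
      exact_mod_cast Nat.choose_pos (by omega)
    rw [mul_div_assoc', div_eq_one_iff_eq p1.ne']
    rw [← h]
    push_cast
    ring
  have hsum : ∑ X ∈ G, (wt (2 * k) 1 0 X.card - wt (2 * k) 1 0 k) ≤ 0 := by
    rw [Finset.sum_sub_distrib, Finset.sum_const, nsmul_eq_mul, htot]
    have : ∑ X ∈ G, wt (2 * k) 1 0 X.card ≤ 1 := hlym
    linarith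
  have heq : ∀ X ∈ G, wt (2 * k) 1 0 X.card = wt (2 * k) 1 0 k := by
    intro X hX
    have h5 : ∑ X ∈ G, (wt (2 * k) 1 0 X.card - wt (2 * k) 1 0 k) = 0 :=
      le_antisymm hsum (Finset.sum_nonneg fun Y hY => sub_nonneg.mpr (hmid Y hY))
    rw [Finset.sum_eq_zero_iff_of_nonneg (fun Y hY => sub_nonneg.mpr (hmid Y hY))] at h5
    exact sub_eq_zero.mp (h5 X hX)
  have hge : ∀ X ∈ G, k ≤ X.card := by
    intro X hX
    by_contra hlt
    have h6 := wt_lt (k := k) (j := X.card) (by omega) (by have := g3 X hX; omega)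
    rw [heq X hX] at h6
    exact lt_irrefl _ h6
  have hcardX : ∀ X ∈ G, X.card = k := by
    intro X hX
    have h7 := hge X hX
    have h8 := hge Xᶜ (g4 X hX)
    rw [Finset.card_compl, Fintype.card_fin] at h8
    omega
  refine ⟨G, hcardX, ?_⟩
  have huniq : ∀ T : Finset (Fin (2 * k)), T.card = k - 1 → ∀ X ∈ G, ∀ Y ∈ G, T ⊆ X → T ⊆ Y →
      X = Y := by
    intro T hT X hX Y hY hTX hTY
    by_contra hne
    have h9 := g2 X hX Y hY hne
    have h10 : X \ Y ⊆ X \ T := Finset.sdiff_subset_sdiff (Finset.Subset.refl X) hTY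
    have h11 := Finset.card_le_card h10
    rw [Finset.card_sdiff_of_subset hTX, hcardX X hX, hT] at h11
    omega
  have hcover : G.biUnion (fun X => powersetCard (k - 1) X) =
      powersetCard (k - 1) (univ : Finset (Fin (2 * k))) := by
    apply Finset.eq_of_subset_of_card_le
    · intro T hT
      rw [Finset.mem_biUnion] at hT
      obtain ⟨X, -, hT⟩ := hT
      rw [mem_powersetCard] at hT ⊢
      exact ⟨Finset.subset_univ _, hT.2⟩
    · rw [Finset.card_biUnion, Finset.card_powersetCard, Finset.card_univ, Fintype.card_fin]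
      · have : ∀ X ∈ G, (powersetCard (k - 1) X).card = k := by
          intro X hX
          rw [Finset.card_powersetCard, hcardX X hX,
            ← Nat.choose_symm_of_eq_add (n := k) (a := 1) (b := k - 1) (by omega)]
          exact Nat.choose_one_right k
        rw [Finset.sum_congr rfl this, Finset.sum_const, smul_eq_mul, g1, e, ← h]
        apply le_of_eq
        ring
      · intro X hX Y hY hne
        rw [Function.onFun, Finset.disjoint_left]
        intro T hT hT'
        rw [mem_powersetCard] at hT hT'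
        exact hne (huniq T hT.2 X hX Y hY hT.1 hT'.1)
  intro T hT
  have hTm : T ∈ powersetCard (k - 1) (univ : Finset (Fin (2 * k))) := by
    rw [mem_powersetCard]; exact ⟨Finset.subset_univ _, hT⟩
  rw [← hcover, Finset.mem_biUnion] at hTm
  obtain ⟨X, hX, hTX⟩ := hTm
  rw [mem_powersetCard] at hTX
  exact ⟨X, ⟨hX, hTX.1⟩, fun Y hY => huniq T hT Y hY.1 X hX hY.2 hTX.1⟩

/-- **Characterisation of equality.** -/
lemma eq_iff_steiner {k : ℕ} (hk : 4 ≤ k) :
    2 * k * maxQI 2 (2 * k) = (2 * k).choose (k - 1) ↔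
      ∃ S : Finset (Finset (Fin (2 * k))), IsSteiner k S := by
  constructor
  · exact steiner_of_eq hk
  · rintro ⟨S, hS⟩
    exact le_antisymm (upper_two_even hk) (hS.lower (by simp) (by omega))

end Pool.Agent.Lib_helper42.QI
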