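import Mathlib
import Pool.Agent.Lib_helper42.QI.Upper

/-!
# `M_2(12) = 66`
-/

set_option autoImplicit false

namespace Pool.Agent.Lib_helper42.QI

open Finset

/-- The set with a given bit mask. -/
def mask (m : ℕ) : Finset (Fin 12) := univ.filter (fun i => m.testBit i.val = true)

/-- The number of bits among the first twelve. -/
def cnt (m : ℕ) : ℕ := (mask m).card

lemma mask_land (m m' : ℕ) : mask (m &&& m') = mask m ∩ mask m' := by
  ext i
  simp [mask, Nat.testBit_and]

lemma mask_compl (m : ℕ) : mask (4095 ^^^ m) = (mask m)ᶜ := by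
  ext i
  have h : (4095 : ℕ).testBit i.val = true := by
    fin_cases i <;> decide
  simp [mask, Nat.testBit_xor, h]

/-- The hexads through the last point. -/
def hexads : List ℕ :=
  [2095, 2142, 2163, 2203, 2236, 2261, 2278, 2281, 2333, 2358, 2379, 2405, 2424, 2439, 2474,
   2481, 2508, 2514, 2613, 2618, 2631, 2649, 2668, 2701, 2710, 2723, 2762, 2800, 2830, 2835,
   2857, 2900, 2914, 2968, 2980, 3009, 3095, 3129, 3149, 3178, 3188, 3214, 3237, 3250, 3267,
   3288, 3354, 3363, 3372, 3398, 3409, 3465, 3476, 3552, 3595, 3612, 3622, 3666, 3681, 3729,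
   3752, 3780, 3845, 3888, 3912, 3970]

lemma hexads_check : ∀ m ∈ hexads, ∀ m' ∈ hexads, m ≠ m' →
    2 ≤ cnt (m &&& m') ∧ 2 ≤ cnt (m &&& (4095 ^^^ m')) ∧ 2 ≤ cnt ((4095 ^^^ m) &&& m') ∧
      2 ≤ cnt ((4095 ^^^ m) &&& (4095 ^^^ m')) := by
  decide +kernel

lemma hexads_nodup : hexads.Nodup := by decide +kernel

lemma maxQI_two_twelve : maxQI 2 12 = 66 := by
  apply le_antisymm
  · have h := upper_bound (r := 2) (n := 12) (by norm_num) (by norm_num)
    have e1 : (12 + 2 - 1).choose (2 - 1) = 13 := by decide
    have e2 : (12 + 2 - 1).choose ((12 + 2 - 1) / 2) = 1716 := by decide +kernel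
    rw [e1, e2] at h
    omega
  · have hQ : QI 2 ((hexads.toFinset).image mask) := by
      intro X hX Y hY hXY
      rw [Finset.mem_image] at hX hY
      obtain ⟨m, hm, rfl⟩ := hX
      obtain ⟨m', hm', rfl⟩ := hY
      rw [List.mem_toFinset] at hm hm'
      have := hexads_check m hm m' hm' (fun hh => hXY (by rw [hh]))
      unfold cnt at this
      rw [mask_land, mask_land, mask_land, mask_land, mask_compl, mask_compl] at this
      exact this
    have hinj : Set.InjOn mask (hexads.toFinset : Set ℕ) := by
      intro m hm m' hm' hmm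
      by_contra hne
      rw [Finset.mem_coe, List.mem_toFinset] at hm hm'
      have := (hexads_check m hm m' hm' hne).2.1
      unfold cnt at this
      rw [mask_land, mask_compl, hmm, Finset.inter_compl] at this
      simp at this
    have := le_maxQI_fin hQ
    rw [Finset.card_image_of_injOn hinj, List.toFinset_card_of_nodup hexads_nodup] at this
    exact this

end Pool.Agent.Lib_helper42.QI
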