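import Mathlib
import Pool.Agent.Lib_helper42.QI.Small

/-!
# Deleting points
-/

set_option autoImplicit false

namespace Pool.Agent.Lib_helper42.QI

open Finset

/-- Deleting `d` points. -/
lemma maxQI_delete {r n : ℕ} (hr : 1 ≤ r) (d : ℕ) : maxQI (r + d) (n + d) ≤ maxQI r n := by
  classical
  refine QI_card_le_of_maxQI (V := Fin n ⊕ Fin d) (by simp) fun F hF => ?_
  refine QI.card_le_maxQI_of_map (W := Fin n) (by simp) F (fun A => A.toLeft) hr ?_
  intro A hA B hB hAB
  obtain ⟨h1, h2, h3, h4⟩ := hF A hA B hB hAB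
  have key : ∀ X : Finset (Fin n ⊕ Fin d), r + d ≤ X.card → r ≤ X.toLeft.card := by
    intro X hX
    have e1 := Finset.card_toLeft_add_card_toRight (u := X)
    have e2 : X.toRight.card ≤ d := by
      have := Finset.card_le_univ X.toRight
      simpa using this
    omega
  have k1 := key _ h1
  have k2 := key _ h2
  have k3 := key _ h3
  have k4 := key _ h4
  have hc : ∀ X : Finset (Fin n ⊕ Fin d), (Xᶜ).toLeft = (X.toLeft)ᶜ := by
    intro X; ext x; simp
  rw [Finset.toLeft_inter] at k1 k2 k3 k4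
  rw [hc] at k2 k3 k4
  rw [hc] at k4
  exact ⟨k1, k2, k3, k4⟩

/-- The lower bound from Hadamard matrices of slightly larger order. -/
lemma window_lower {r s n : ℕ} (hr : 1 ≤ r) (hs : r ≤ s) (hn : 3 * s + r ≤ n)
    (H : Matrix (Fin (4 * s)) (Fin (4 * s)) ℤ) (hH : H.IsHadamard) :
    4 * s - 1 ≤ maxQI r n := by
  have h1 := maxQI_of_hadamard (by omega : 1 ≤ s) H hH
  obtain ⟨d, rfl⟩ : ∃ d, s = r + d := ⟨s - r, by omega⟩
  have h2 := maxQI_delete (r := r) (n := 3 * (r + d) + r) hr d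
  have e1 : 3 * (r + d) + r + d = 4 * (r + d) := by ring
  rw [e1, h1] at h2
  exact h2.trans (maxQI_mono hr hn)

end Pool.Agent.Lib_helper42.QI
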